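import Pool.Agent.Y138.UC.Th

/-!
# The dimension count
-/

set_option autoImplicit false

open CategoryTheory AlgebraicGeometry

universe u v

namespace Pool.Agent.Y138.UC

variable {k : Type u} [Field k] {F : Type v} [Field F]

section LinAlg

variable {V₁ V₂ V₃ V₄ V₅ : Type v} [AddCommGroup V₁] [AddCommGroup V₂] [AddCommGroup V₃]
  [AddCommGroup V₄] [AddCommGroup V₅] [Module F V₁] [Module F V₂] [Module F V₃] [Module F V₄]
  [Module F V₅]

/-- The boundary map is bijective if the two outer terms vanish. -/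
theorem finrank_of_zero [Subsingleton V₁] [Subsingleton V₄] (f : V₁ →ₗ[F] V₂) (g : V₂ →ₗ[F] V₃)
    (h : V₃ →ₗ[F] V₄) (h1 : Function.Exact f g) (h2 : Function.Exact g h) :
    Module.finrank F V₂ = Module.finrank F V₃ := by
  have hi : Function.Injective g := by
    rw [← LinearMap.ker_eq_bot, LinearMap.exact_iff.1 h1, LinearMap.range_eq_bot]
    exact LinearMap.ext fun x => by rw [Subsingleton.elim x 0, map_zero, map_zero]
  have hs : Function.Surjective g := by
    intro y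
    exact (h2 y).1 (Subsingleton.elim _ _)
  exact (LinearEquiv.ofBijective g ⟨hi, hs⟩).finrank_eq

/-- The short exact sequence extracted from a long one. -/
theorem finrank_of_inj [Module.Finite F V₂] (f : V₁ →ₗ[F] V₂) (g : V₂ →ₗ[F] V₃)
    (h : V₃ →ₗ[F] V₄) (i : V₄ →ₗ[F] V₅) (h1 : Function.Exact f g) (h2 : Function.Exact g h)
    (h3 : Function.Exact h i) (hf : Function.Injective f) (hi : Function.Injective i) :
    Module.finrank F V₂ = Module.finrank F V₁ + Module.finrank F V₃ := by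
  refine finrank_of_exact f g h1 hf fun y => (h2 y).1 (hi ?_)
  rw [map_zero]
  exact (h3 (h y)).2 ⟨y, rfl⟩

end LinAlg

/-- The pull-back along a bundle preserves the dimension. -/
theorem IsHomology.finrank_pull {H : ℤ → Functor.{u, v} k F} (hH : IsHomology H)
    {E B : Over (Spec (.of k))} {f : E ⟶ B} {r : ℕ} (hf : IsAffineBundle r f.left)
    (hB : IsVariety B) (m : ℤ) {n n' : ℤ} (h : n = n' + r) :
    Module.finrank F ((H m).M E n) = Module.finrank F ((H m).M B n') := by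
  subst h
  exact (LinearEquiv.ofBijective _ (hH.pull hf hB m n')).finrank_eq.symm

/-- The restriction to an open subscheme with a section is injective. -/
theorem IsHomology.res_injective {H : ℤ → Functor.{u, v} k F} (hH : IsHomology H)
    {E B U : Over (Spec (.of k))} {f : E ⟶ B} {r : ℕ} (hf : IsAffineBundle r f.left)
    {j : U ⟶ E} (hj : IsOpenImmersion j.left) {s : B ⟶ U} (hs : s ≫ j ≫ f = 𝟙 B)
    (hB : IsVariety B) (m : ℤ) {n n' : ℤ} (h : n = n' + r) :
    Function.Injective ((H m).res j hj n) := by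
  subst h
  intro x y hxy
  obtain ⟨x', rfl⟩ := (hH.pull hf hB m n').2 x
  obtain ⟨y', rfl⟩ := (hH.pull hf hB m n').2 y
  exact congrArg _ (hH.section_inj hf hj hs hB m n' hxy)

variable {T : CycleTheory.{u, v} k F}

/-- The push-forward is injective. -/
theorem CycleTheory.IsValid.push_count (hT : T.IsValid)
    {X S U P H₀ U' H₁ L Z E : Over (Spec (.of k))}
    {iX : X ⟶ S} {jU : U ⟶ S} (c1 : IsComplement iX jU)
    {iH : H₀ ⟶ P} {jP : U' ⟶ P} (c2 : IsComplement iH jP)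
    {iL : H₁ ⟶ L} {jL : U' ⟶ L} (c3 : IsComplement iL jL)
    {iZ : Z ⟶ H₀} {jE : E ⟶ H₀} (c4 : IsComplement iZ jE)
    {r : ℕ} {pE : E ⟶ U} (bE : IsAffineBundle r pE.left) {pH : H₁ ⟶ U}
    (bH : IsAffineBundle r pH.left) {pZ : Z ⟶ X} (bZ : IsAffineBundle (r + 1) pZ.left)
    {pL : L ⟶ H₁} (bL : IsAffineBundle 1 pL.left) {s : H₁ ⟶ U'} (hs : s ≫ jL ≫ pL = 𝟙 H₁)
    (vX : IsVariety X) (vS : IsVariety S) (vU : IsVariety U) (vP : IsVariety P)
    (vH₀ : IsVariety H₀) (vU' : IsVariety U') (vH₁ : IsVariety H₁) (vL : IsVariety L)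
    (vZ : IsVariety Z) (vE : IsVariety E) {a n : ℤ} (hn : n = a + (r + 1 : ℕ))
    (hS0 : Subsingleton ((T.H 0).M S a)) (hS1 : Subsingleton ((T.H (0 + 1)).M S a))
    (hP0 : Subsingleton ((T.H 0).M P n)) (hP1 : Subsingleton ((T.H (0 + 1)).M P n)) :
    Function.Injective ((T.H 0).push iZ c4.1 n) := by
  have hH := hT.homology
  -- (1)
  have e1 : Module.finrank F ((T.H (0 + 1)).M U' n) = Module.finrank F ((T.H 0).M H₀ n) := by
    obtain ⟨h1, δ, h2, h3⟩ := hH.exact vP c2 0 n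
    exact finrank_of_zero _ _ _ h2 h3
  -- (2)
  have e2 : Module.finrank F ((T.H (0 + 1)).M U' n) =
      Module.finrank F ((T.H (0 + 1)).M L n) + Module.finrank F ((T.H 0).M H₁ n) := by
    obtain ⟨h1, δ, h2, h3⟩ := hH.exact vL c3 0 n
    have fin := hH.finite vU' (0 + 1) n
    exact finrank_of_inj _ _ _ _ h2 h3 h1
      (hH.res_injective bL c3.2.1 hs vH₁ (0 + 1) (n' := n - 1) (by push_cast; ring))
      (hH.res_injective bL c3.2.1 hs vH₁ 0 (n' := n - 1) (by push_cast; ring))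
  have e2' : Module.finrank F ((T.H (0 + 1)).M L n) =
      Module.finrank F ((T.H (0 + 1)).M H₁ (n - 1)) :=
    hH.finrank_pull bL vH₁ _ (by push_cast; ring)
  -- (3)
  have e3 : Module.finrank F ((T.H (0 + 1)).M H₁ (n - 1)) =
      Module.finrank F ((T.H (0 + 1)).M U a) :=
    hH.finrank_pull bH vU _ (by rw [hn]; push_cast; ring)
  have e3' : Module.finrank F ((T.H 0).M H₁ n) = Module.finrank F ((T.H 0).M U (a + 1)) :=
    hH.finrank_pull bH vU _ (by rw [hn]; push_cast; ring)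
  -- (4)
  have e4 : Module.finrank F ((T.H 0).M E n) = Module.finrank F ((T.H 0).M U (a + 1)) :=
    hH.finrank_pull bE vU _ (by rw [hn]; push_cast; ring)
  -- (5)
  have e5 : Module.finrank F ((T.H 0).M Z n) = Module.finrank F ((T.H 0).M X a) :=
    hH.finrank_pull bZ vX _ hn
  -- (6)
  have e6 : Module.finrank F ((T.H (0 + 1)).M U a) = Module.finrank F ((T.H 0).M X a) := by
    obtain ⟨h1, δ, h2, h3⟩ := hH.exact vS c1 0 a
    exact finrank_of_zero _ _ _ h2 h3
  -- (7)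
  have f1 := hH.finite vZ 0 n
  have f2 := hH.finite vH₀ 0 n
  have f3 := hH.finite vE 0 n
  refine inj_of_finrank _ _ (hH.exact vH₀ c4 0 n).1 ?_
  omega

/-- The main argument. -/
theorem CycleTheory.IsValid.main_count (hT : T.IsValid)
    {X S U H₀ Z E : Over (Spec (.of k))}
    {iX : X ⟶ S} {jU : U ⟶ S} (c1 : IsComplement iX jU)
    {iZ : Z ⟶ H₀} {jE : E ⟶ H₀} (c4 : IsComplement iZ jE)
    {r : ℕ} {pE : E ⟶ U} (bE : IsAffineBundle r pE.left)
    {pZ : Z ⟶ X} (bZ : IsAffineBundle (r + 1) pZ.left)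
    (vX : IsVariety X) (vS : IsVariety S) (vU : IsVariety U)
    (vH₀ : IsVariety H₀) {a n : ℤ} (hn : n = a + (r + 1 : ℕ))
    (hinj : Function.Injective ((T.H 0).push iZ c4.1 n))
    (hC : Subsingleton (T.C.M S (a + 1))) (h : T.Algebraic H₀ n) : T.Algebraic X a := by
  have hCU : Subsingleton (T.C.M U (a + 1)) := (hT.chow.exact vS c1 (a + 1)).2.subsingleton
  have hCE : Subsingleton (T.C.M E n) := by
    have h1 : n = a + 1 + (r : ℕ) := by rw [hn]; push_cast; ring
    rw [h1]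
    exact (hT.chow.pull bE vU (a + 1)).subsingleton
  have hsurj : Function.Surjective (T.C.push iZ c4.1 n) := fun y =>
    ((hT.chow.exact vH₀ c4 n).1 y).1 (Subsingleton.elim _ _)
  refine hT.algebraic_of_bundle pZ bZ vX ?_
  rw [← hn]
  intro x hx
  obtain ⟨ξ, hξ⟩ := h ((hT.push iZ c4.1 n).2 x hx)
  obtain ⟨ζ, rfl⟩ := hsurj ξ
  rw [(hT.push iZ c4.1 n).1] at hξ
  exact ⟨ζ, hinj hξ⟩

/-- The converse for weighted theories. -/
theorem CycleTheory.IsWeighted.converse (hT : T.IsValid) (hw : T.IsWeighted)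
    {X S U H₀ Z E : Over (Spec (.of k))}
    {jU : U ⟶ S} (oU : IsOpenImmersion jU.left)
    {iZ : Z ⟶ H₀} {jE : E ⟶ H₀} (c4 : IsComplement iZ jE)
    {r : ℕ} {pE : E ⟶ U} (bE : IsAffineBundle r pE.left)
    {pZ : Z ⟶ X} (bZ : IsAffineBundle (r + 1) pZ.left)
    (vX : IsVariety X) (vS : IsVariety S) (vU : IsVariety U)
    (vH₀ : IsVariety H₀) {a n : ℤ} (hn : n = a + (r + 1 : ℕ))
    (hinj : Function.Injective ((T.H 0).push iZ c4.1 n))
    (hS : Subsingleton ((T.H 0).M S (a + 1))) (h : T.Algebraic X a) : T.Algebraic H₀ n := by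
  intro x hx
  have h3 : ∀ (m : ℤ), m = a + 1 + (r : ℕ) → ∀ y ∈ T.special E m, y = 0 := by
    rintro _ rfl y hy
    obtain ⟨z, rfl⟩ := (hT.homology.pull bE vU 0 (a + 1)).2 y
    obtain ⟨w, rfl⟩ := hw.res jU oU vS _ _ (hw.pull _ _ bE vU _ _ hy)
    rw [Subsingleton.elim w 0, map_zero, map_zero]
  have h4 := h3 n (by rw [hn]; push_cast; ring) _ ((hT.res jE c4.2.1 n).2 x hx)
  obtain ⟨z, rfl⟩ := ((hT.homology.exact vH₀ c4 0 n).1 x).1 h4
  have hz := hw.push iZ c4.1 vH₀ n hinj z hx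
  subst hn
  obtain ⟨w, rfl⟩ := (hT.homology.pull bZ vX 0 a).2 z
  obtain ⟨η, rfl⟩ := h (hw.pull _ _ bZ vX _ _ hz)
  refine ⟨T.C.push iZ c4.1 _ (T.C.pull pZ (r + 1) bZ a η), ?_⟩
  rw [(hT.push iZ c4.1 _).1, (hT.pull pZ (r + 1) bZ a).1]

end Pool.Agent.Y138.UC
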