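import Pool.Agent.Y138.UC.Bun
import Pool.Agent.Y138.UC.Count

/-!
# The reduction for closed subschemes of affine space
-/

set_option autoImplicit false

open CategoryTheory AlgebraicGeometry

universe u v

namespace Pool.Agent.Y138.UC

variable {k : Type u} [Field k] {F : Type v} [Field F] {T : CycleTheory.{u, v} k F}

section

variable {A : Type u} [CommRing A] [Algebra k A] [Algebra.FiniteType k A]

theorem finiteType_gm {r : ℕ} (q : Fin (r + 1) → A) : Algebra.FiniteType k (GmR q) := by
  have h : Algebra.FiniteType (LinR q) (GmR q) :=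
    RingHom.finiteType_algebraMap.1 (RingHom.finiteType_holdsForLocalizationAway (GmR q) (MvPolynomial.X 0 : LinR q))
  exact Algebra.FiniteType.trans (S := LinR q) inferInstance h

theorem CycleTheory.IsValid.hyp_push (hT : T.IsValid) {r : ℕ} (q : Fin (r + 1) → A) (a : ℤ)
    (h0 : Subsingleton ((T.H 0).M (aff k A) a))
    (h1 : Subsingleton ((T.H (0 + 1)).M (aff k A) a)) :
    Function.Injective ((T.H 0).push (affMap (resZ q) (resZ_alg (k := k) q)) (compl_Z q).1
      (a + (r + 1 : ℕ))) := by
  have vS : IsVariety (aff k A) := isVariety_aff A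
  have vH0 : IsVariety (aff k (Hyp q 0)) := isVariety_aff _
  have vGm : IsVariety (aff k (GmR q)) := isVariety_aff _ (h := finiteType_gm q)
  have hP : ∀ m, Subsingleton ((T.H m).M (aff k A) a) →
      Subsingleton ((T.H m).M (aff k (MvPolynomial (Fin (r + 1)) A)) (a + (r + 1 : ℕ))) := by
    intro m hm
    exact (hT.homology.pull (isAffineBundle_triv (k := k) A (r + 1)) vS m a).2.subsingleton
  exact hT.push_count (compl_X q) (compl_H0 q) (compl_L q) (compl_Z q)
    (isAffineBundle_bunE q) (isAffineBundle_bunH q) (isAffineBundle_triv _ (r + 1))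
    (isAffineBundle_triv _ 1) (secG_section q) (isVariety_aff _) vS (isVariety_opn vS _)
    (isVariety_aff _) vH0 vGm (isVariety_aff _) (isVariety_aff _) (isVariety_aff _)
    (isVariety_opn vH0 _) rfl h0 h1 (hP 0 h0) (hP (0 + 1) h1)

/-- The reduction over a base whose homology vanishes in the relevant degrees. -/
theorem CycleTheory.IsValid.hyp_case (hT : T.IsValid) {r : ℕ} (q : Fin (r + 1) → A) (a : ℤ)
    (h0 : Subsingleton ((T.H 0).M (aff k A) a))
    (h1 : Subsingleton ((T.H (0 + 1)).M (aff k A) a))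
    (hC : Subsingleton (T.C.M (aff k A) (a + 1)))
    (h : T.Algebraic (aff k (Hyp q 0)) (a + (r + 1 : ℕ))) :
    T.Algebraic (aff k (A ⧸ Ideal.span (Set.range q))) a := by
  have vS : IsVariety (aff k A) := isVariety_aff A
  have vH0 : IsVariety (aff k (Hyp q 0)) := isVariety_aff _
  exact hT.main_count (compl_X q) (compl_Z q) (isAffineBundle_bunE q)
    (isAffineBundle_triv _ (r + 1)) (isVariety_aff _) vS (isVariety_opn vS _) vH0 rfl
    (hT.hyp_push q a h0 h1) hC h

/-- The converse. -/
theorem CycleTheory.IsWeighted.hyp_case (hT : T.IsValid) (hw : T.IsWeighted) {r : ℕ}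
    (q : Fin (r + 1) → A) (a : ℤ)
    (h0 : Subsingleton ((T.H 0).M (aff k A) a))
    (h1 : Subsingleton ((T.H (0 + 1)).M (aff k A) a))
    (h2 : Subsingleton ((T.H 0).M (aff k A) (a + 1)))
    (h : T.Algebraic (aff k (A ⧸ Ideal.span (Set.range q))) a) :
    T.Algebraic (aff k (Hyp q 0)) (a + (r + 1 : ℕ)) := by
  have vS : IsVariety (aff k A) := isVariety_aff A
  have vH0 : IsVariety (aff k (Hyp q 0)) := isVariety_aff _
  exact hw.converse hT (compl_X (k := k) q).2.1 (compl_Z q) (isAffineBundle_bunE q)
    (isAffineBundle_triv _ (r + 1)) (isVariety_aff _) vS (isVariety_opn vS _) vH0 rfl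
    (hT.hyp_push q a h0 h1) h2 h

end

/-- The homology of affine space. -/
theorem CycleTheory.IsValid.affine_space (hT : T.IsValid) (N : ℕ) (m a : ℤ)
    (h : m + 2 * (a - N) ≠ 0) :
    Subsingleton ((T.H m).M (aff k (MvPolynomial (Fin N) k)) a) := by
  have h1 := hT.homology.point m (a - N) h
  have h2 := (hT.homology.pull (isAffineBundle_triv (k := k) k N) (isVariety_aff k) m
    (a - N)).2.subsingleton
  rw [sub_add_cancel] at h2
  exact h2

/-- The cycles on affine space. -/
theorem CycleTheory.IsValid.affine_space_chow (hT : T.IsValid) (N : ℕ) (a : ℤ)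
    (h : a ≠ N) : Subsingleton (T.C.M (aff k (MvPolynomial (Fin N) k)) a) := by
  have h1 := hT.chow.point (a - N) (by omega)
  have h2 := (hT.chow.pull (isAffineBundle_triv (k := k) k N) (isVariety_aff k)
    (a - N)).subsingleton
  rw [sub_add_cancel] at h2
  exact h2

/-- The reduction for closed subschemes of affine space. -/
theorem CycleTheory.IsValid.space_case (hT : T.IsValid) {N r : ℕ}
    (q : Fin (r + 1) → MvPolynomial (Fin N) k) (a : ℤ) (ha : a ≠ N) (ha' : a + 1 ≠ N)
    (h : T.Algebraic (aff k (Hyp q 0)) (a + (r + 1 : ℕ))) :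
    T.Algebraic (aff k (MvPolynomial (Fin N) k ⧸ Ideal.span (Set.range q))) a :=
  hT.hyp_case q a (hT.affine_space N 0 a (by omega)) (hT.affine_space N (0 + 1) a (by omega))
    (hT.affine_space_chow N (a + 1) ha') h

/-- The converse for closed subschemes of affine space. -/
theorem CycleTheory.IsWeighted.space_case (hT : T.IsValid) (hw : T.IsWeighted) {N r : ℕ}
    (q : Fin (r + 1) → MvPolynomial (Fin N) k) (a : ℤ) (ha : a ≠ N) (ha' : a + 1 ≠ N)
    (h : T.Algebraic (aff k (MvPolynomial (Fin N) k ⧸ Ideal.span (Set.range q))) a) :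
    T.Algebraic (aff k (Hyp q 0)) (a + (r + 1 : ℕ)) :=
  hw.hyp_case hT q a (hT.affine_space N 0 a (by omega)) (hT.affine_space N (0 + 1) a (by omega))
    (hT.affine_space N 0 (a + 1) (by omega)) h

end Pool.Agent.Y138.UC
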