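import Pool.Agent.Y138.UC.Sch

/-!
# The two bundles
-/

set_option autoImplicit false

open CategoryTheory AlgebraicGeometry PrimeSpectrum

universe u v

namespace Pool.Agent.Y138.UC

variable {k : Type u} [Field k] {A : Type u} [CommRing A] [Algebra k A] {r : ℕ}
  (q : Fin (r + 1) → A)

theorem loc_triv (c : A) : ∀ x ∈ opU q, ∃ a : A, x ∈ basicOpen a ∧
      (basicOpen a : Set (PrimeSpectrum A)) ⊆ (opU q : Set (Spec (.of A))) ∧
      ∃ θ : Hyp q c →+* MvPolynomial (Fin r) (Localization.Away a),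
        IsOpenImmersion (Spec.map (CommRingCat.ofHom θ)) ∧
        Set.range (Spec.map (CommRingCat.ofHom θ)) =
          (basicOpen (strH q c a) : Set (PrimeSpectrum (Hyp q c))) ∧
        θ.comp (strH q c) = MvPolynomial.C.comp (algebraMap A (Localization.Away a)) := by
  intro x hx
  obtain ⟨i, hi⟩ := (mem_opU q x).1 hx
  refine ⟨q i, hi, fun y hy => (mem_opU q y).2 ⟨i, hy⟩, thetaH q c i, (thetaH_spec q c i).1,
    (thetaH_spec q c i).2, thetaH_comp q c i⟩

/-- The bundle over the complement, `c = 0`. -/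
noncomputable def bunE : opn (aff k (Hyp q 0)) (opE q) ⟶ opn (aff k A) (opU q) :=
  Over.homMk (Spec.map (CommRingCat.ofHom (strH q 0)) ∣_ opU q) (by
    change (Spec.map (CommRingCat.ofHom (strH q 0)) ∣_ opU q) ≫ (opU q).ι ≫
      Spec.map (CommRingCat.ofHom (algebraMap k A)) =
      (opE q).ι ≫ Spec.map (CommRingCat.ofHom (algebraMap k (Hyp q 0)))
    rw [← Category.assoc, morphismRestrict_ι, Category.assoc, ← Spec.map_comp,
      ← CommRingCat.ofHom_comp]
    rfl)

theorem isAffineBundle_bunE : IsAffineBundle r (bunE (k := k) q).left := by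
  refine isAffineBundle_of_local (strH q 0) (opU q) (opE q).ι
    (Spec.map (CommRingCat.ofHom (strH q 0)) ∣_ opU q) (morphismRestrict_ι _ _) ?_ r
    (loc_triv q 0)
  have h : ∀ x : Spec (.of (Hyp q 0)), x ∈ Set.range (opE q).ι ↔ x ∈ opE q := by
    intro x
    simp
  exact Set.ext fun x => h x

theorem range_subset : Set.range (Spec.map (CommRingCat.ofHom (strH q 1))) ⊆
    Set.range (opU q).ι := by
  have h : ∀ x : Spec (.of A), x ∈ Set.range (opU q).ι ↔ x ∈ opU q := by
    intro x
    simp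
  rintro _ ⟨x, rfl⟩
  refine (h _).2 ((mem_opU_iff q (PrimeSpectrum.comap (strH q 1) x)).2 fun hx => ?_)
  rw [SetLike.coe_subset_coe] at hx
  have h2 : (Ideal.span (Set.range q)).map (strH q 1) ≤ x.asIdeal := Ideal.map_le_iff_le_comap.2 hx
  have h3 : (Ideal.Quotient.mk (Ideal.span {phi q - MvPolynomial.C 1}) (phi q) : Hyp q 1) ∈
      (Ideal.span (Set.range q)).map (strH q 1) := by
    rw [show Ideal.Quotient.mk (Ideal.span {phi q - MvPolynomial.C 1}) (phi q) =
      ∑ i, Ideal.Quotient.mk (Ideal.span {phi q - MvPolynomial.C 1})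
        (MvPolynomial.C (q i) * MvPolynomial.X i) from map_sum _ _ _]
    refine Ideal.sum_mem _ fun i _ => ?_
    rw [map_mul]
    exact Ideal.mul_mem_right _ _
      (Ideal.mem_map_of_mem (strH q 1) (Ideal.subset_span (Set.mem_range_self i)))
  rw [phi_mk] at h3
  exact x.isPrime.ne_top ((Ideal.eq_top_iff_one _).2 (h2 h3))

/-- The lift of the structure map. -/
noncomputable def liftH : Spec (.of (Hyp q 1)) ⟶ (opU q).toScheme :=
  IsOpenImmersion.lift (opU q).ι (Spec.map (CommRingCat.ofHom (strH q 1))) (range_subset q)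

theorem liftH_fac : liftH q ≫ (opU q).ι = Spec.map (CommRingCat.ofHom (strH q 1)) :=
  IsOpenImmersion.lift_fac _ _ _

/-- The bundle over the complement, `c = 1`. -/
noncomputable def bunH : aff k (Hyp q 1) ⟶ opn (aff k A) (opU q) :=
  Over.homMk (liftH q) (by
    change liftH q ≫ (opU q).ι ≫ Spec.map (CommRingCat.ofHom (algebraMap k A)) =
      Spec.map (CommRingCat.ofHom (algebraMap k (Hyp q 1)))
    rw [← Category.assoc, liftH_fac, ← Spec.map_comp, ← CommRingCat.ofHom_comp]
    rfl)

theorem isAffineBundle_bunH : IsAffineBundle r (bunH (k := k) q).left := by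
  refine isAffineBundle_of_local (strH q 1) (opU q) (𝟙 _) (liftH q) ?_ ?_ r (loc_triv q 1)
  · rw [liftH_fac, Category.id_comp]
  · have h : ∀ x : Spec (.of A), x ∈ Set.range (opU q).ι ↔ x ∈ opU q := by
      intro x
      simp
    refine Set.ext fun x => ⟨fun _ => ?_, fun _ => ⟨x, rfl⟩⟩
    exact (h _).1 (range_subset q ⟨x, rfl⟩)

end Pool.Agent.Y138.UC
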