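import Pool.Agent.Y138.UC.Gm

/-!
# Schemes over `k`
-/

set_option autoImplicit false

open CategoryTheory AlgebraicGeometry PrimeSpectrum

universe u v

namespace Pool.Agent.Y138.UC

variable {k : Type u} [Field k]

/-- The morphism of a homomorphism of `k`-algebras. -/
noncomputable def affMap {A B : Type u} [CommRing A] [CommRing B] [Algebra k A] [Algebra k B]
    (f : A →+* B) (hf : f.comp (algebraMap k A) = algebraMap k B) : aff k B ⟶ aff k A :=
  Over.homMk (Spec.map (CommRingCat.ofHom f)) (by
    change Spec.map (CommRingCat.ofHom f) ≫ Spec.map (CommRingCat.ofHom (algebraMap k A)) =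
      Spec.map (CommRingCat.ofHom (algebraMap k B))
    rw [← Spec.map_comp, ← CommRingCat.ofHom_comp, hf])

theorem affMap_left {A B : Type u} [CommRing A] [CommRing B] [Algebra k A] [Algebra k B]
    (f : A →+* B) (hf : f.comp (algebraMap k A) = algebraMap k B) :
    (affMap f hf).left = Spec.map (CommRingCat.ofHom f) := rfl

/-- An open subscheme. -/
noncomputable def opn (X : Over (Spec (.of k))) (U : X.left.Opens) : Over (Spec (.of k)) :=
  Over.mk (U.ι ≫ X.hom)

/-- The inclusion of an open subscheme. -/
noncomputable def opnι (X : Over (Spec (.of k))) (U : X.left.Opens) : opn X U ⟶ X :=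
  Over.homMk U.ι

theorem isVariety_aff (A : Type u) [CommRing A] [Algebra k A] [h : Algebra.FiniteType k A] :
    IsVariety (aff k A) := by
  refine ⟨?_, ?_, ?_⟩
  · change IsSeparated (Spec.map _)
    infer_instance
  · change LocallyOfFiniteType (Spec.map _)
    rw [HasRingHomProperty.Spec_iff (P := @LocallyOfFiniteType)]
    exact (RingHom.finiteType_algebraMap).2 h
  · change QuasiCompact (Spec.map _)
    infer_instance

theorem isVariety_opn {X : Over (Spec (.of k))} (h : IsVariety X) (U : X.left.Opens) :
    IsVariety (opn X U) := by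
  obtain ⟨h1, h2, h3⟩ := h
  have h4 : IsLocallyNoetherian X.left := LocallyOfFiniteType.isLocallyNoetherian X.hom
  refine ⟨?_, ?_, ?_⟩
  · change IsSeparated (U.ι ≫ X.hom)
    infer_instance
  · change LocallyOfFiniteType (U.ι ≫ X.hom)
    infer_instance
  · change QuasiCompact (U.ι ≫ X.hom)
    infer_instance

theorem isVariety_closed {Z X : Over (Spec (.of k))} (h : IsVariety X) (i : Z ⟶ X)
    (hi : IsClosedImmersion i.left) : IsVariety Z := by
  obtain ⟨h1, h2, h3⟩ := h
  have e : Z.hom = i.left ≫ X.hom := (Over.w i).symm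
  refine ⟨?_, ?_, ?_⟩
  · rw [e]; infer_instance
  · rw [e]; infer_instance
  · rw [e]; infer_instance

end Pool.Agent.Y138.UC
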