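import Pool.Agent.Y138.UC.Noe

/-!
# The converse for all hypersurfaces which are linear in a set of variables
-/

set_option autoImplicit false

open CategoryTheory AlgebraicGeometry PrimeSpectrum

universe u v

namespace Pool.Agent.Y138.UC

variable {k : Type u} [Field k]

section

variable {A : Type u} [CommRing A] [Algebra k A] {r : ℕ} (q : Fin (r + 1) → A) (c : A)

/-- The ideal of the common zeros of `c` and the `qᵢ`. -/
abbrev idJ : Ideal A := Ideal.span (Set.range (Fin.cons c q : Fin (r + 2) → A))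

theorem mem_idJ_q (i : Fin (r + 1)) : q i ∈ idJ q c :=
  Ideal.subset_span ⟨i.succ, rfl⟩

theorem mem_idJ_c : c ∈ idJ q c :=
  Ideal.subset_span ⟨0, rfl⟩

theorem mk_phi : Ideal.Quotient.mk (Ideal.span {phi q - MvPolynomial.C c}) (phi q) =
    strH q c c := by
  have h1 : (Ideal.Quotient.mk (Ideal.span {phi q - MvPolynomial.C c}))
      (phi q - MvPolynomial.C c) = 0 :=
    Ideal.Quotient.eq_zero_iff_mem.2 (Ideal.subset_span rfl)
  rw [map_sub, sub_eq_zero] at h1
  exact h1

/-- The restriction to `X × 𝔸^{r+1}`. -/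
noncomputable def resC : Hyp q c →+* MvPolynomial (Fin (r + 1)) (A ⧸ idJ q c) :=
  Ideal.Quotient.lift _ (MvPolynomial.map (Ideal.Quotient.mk (idJ q c))) (by
    intro x hx
    refine Submodule.span_induction ?_ ?_ ?_ ?_ hx
    · rintro _ rfl
      rw [map_sub, MvPolynomial.map_C, Ideal.Quotient.eq_zero_iff_mem.2 (mem_idJ_c q c),
        map_zero, sub_zero, phi, map_sum]
      refine Finset.sum_eq_zero fun i _ => ?_
      rw [map_mul, MvPolynomial.map_C, Ideal.Quotient.eq_zero_iff_mem.2 (mem_idJ_q q c i),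
        map_zero, zero_mul]
    · exact map_zero _
    · intro x y _ _ hx hy
      rw [map_add, hx, hy, add_zero]
    · intro a x _ hx
      rw [smul_eq_mul, map_mul, hx, mul_zero])

theorem resC_mk (p : MvPolynomial (Fin (r + 1)) A) : resC q c (Ideal.Quotient.mk _ p) =
    MvPolynomial.map (Ideal.Quotient.mk (idJ q c)) p := by
  rw [resC, Ideal.Quotient.lift_mk]

theorem resC_surjective : Function.Surjective (resC q c) := by
  intro y
  obtain ⟨p, rfl⟩ := MvPolynomial.map_surjective _
    (Ideal.Quotient.mk_surjective (I := idJ q c)) y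
  exact ⟨Ideal.Quotient.mk _ p, resC_mk q c p⟩

theorem resC_alg : (resC q c).comp (algebraMap k (Hyp q c)) =
    algebraMap k (MvPolynomial (Fin (r + 1)) (A ⧸ idJ q c)) := by
  refine RingHom.ext fun x => ?_
  change resC q c (Ideal.Quotient.mk _ (MvPolynomial.C (algebraMap k A x))) = _
  rw [resC_mk, MvPolynomial.map_C]
  rfl

theorem resC_ker : RingHom.ker (resC q c) = (idJ q c).map (strH q c) := by
  apply le_antisymm
  · intro y hy
    obtain ⟨p, rfl⟩ := Ideal.Quotient.mk_surjective y
    rw [RingHom.mem_ker, resC_mk, ← RingHom.mem_ker, MvPolynomial.ker_map, Ideal.mk_ker] at hy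
    have h1 := Ideal.mem_map_of_mem
      (Ideal.Quotient.mk (Ideal.span {phi q - MvPolynomial.C c})) hy
    rw [Ideal.map_map] at h1
    exact h1
  · rw [Ideal.map_le_iff_le_comap, Ideal.span_le]
    rintro _ ⟨i, rfl⟩
    change resC q c (Ideal.Quotient.mk _ (MvPolynomial.C _)) = 0
    rw [resC_mk, MvPolynomial.map_C,
      Ideal.Quotient.eq_zero_iff_mem.2 (Ideal.subset_span (Set.mem_range_self i)), map_zero]

/-- The open complement of `X × 𝔸^{r+1}`. -/
noncomputable def opC : (Spec (.of (Hyp q c))).Opens :=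
  Spec.map (CommRingCat.ofHom (strH q c)) ⁻¹ᵁ opU q

theorem mem_opC (x : PrimeSpectrum (Hyp q c)) : x ∈ opC q c ↔
    ¬ (RingHom.ker (resC q c) : Set (Hyp q c)) ⊆ x.asIdeal := by
  have h1 : x ∈ opC q c ↔ PrimeSpectrum.comap (strH q c) x ∈ opU q := Iff.rfl
  rw [h1, mem_opU_iff, resC_ker, SetLike.coe_subset_coe, SetLike.coe_subset_coe,
    Ideal.map_le_iff_le_comap, not_iff_not]
  constructor
  · intro h2
    rw [Ideal.span_le]
    rintro _ ⟨i, rfl⟩
    refine Fin.cases ?_ (fun j => ?_) i
    · change strH q c c ∈ x.asIdeal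
      rw [← mk_phi, show Ideal.Quotient.mk (Ideal.span {phi q - MvPolynomial.C c}) (phi q) =
        ∑ i, Ideal.Quotient.mk (Ideal.span {phi q - MvPolynomial.C c})
          (MvPolynomial.C (q i) * MvPolynomial.X i) from map_sum _ _ _]
      refine Ideal.sum_mem _ fun i _ => ?_
      rw [map_mul]
      exact Ideal.mul_mem_right _ _ (h2 (Ideal.subset_span (Set.mem_range_self i)))
    · exact h2 (Ideal.subset_span (Set.mem_range_self j))
  · intro h2
    refine le_trans ?_ h2
    rw [Ideal.span_le]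
    rintro _ ⟨i, rfl⟩
    exact mem_idJ_q q c i

theorem compl_C : IsComplement (k := k) (affMap (resC q c) (resC_alg q c))
    (opnι (aff k (Hyp q c)) (opC q c)) :=
  isComplement_opn _ _ (resC_surjective q c) _ (mem_opC q c)

/-- The bundle over the complement. -/
noncomputable def bunC : opn (aff k (Hyp q c)) (opC q c) ⟶ opn (aff k A) (opU q) :=
  Over.homMk (Spec.map (CommRingCat.ofHom (strH q c)) ∣_ opU q) (by
    change (Spec.map (CommRingCat.ofHom (strH q c)) ∣_ opU q) ≫ (opU q).ι ≫
      Spec.map (CommRingCat.ofHom (algebraMap k A)) =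
      (opC q c).ι ≫ Spec.map (CommRingCat.ofHom (algebraMap k (Hyp q c)))
    rw [← Category.assoc, morphismRestrict_ι, Category.assoc, ← Spec.map_comp,
      ← CommRingCat.ofHom_comp]
    rfl)

theorem isAffineBundle_bunC : IsAffineBundle r (bunC (k := k) q c).left := by
  refine isAffineBundle_of_local (strH q c) (opU q) (opC q c).ι
    (Spec.map (CommRingCat.ofHom (strH q c)) ∣_ opU q) (morphismRestrict_ι _ _) ?_ r
    (loc_triv q c)
  have h : ∀ x : Spec (.of (Hyp q c)), x ∈ Set.range (opC q c).ι ↔ x ∈ opC q c := by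
    intro x
    simp
  exact Set.ext fun x => h x

end

/-- The coordinate ring of the hypersurface. -/
noncomputable def linEquiv {N r : ℕ} (q : Fin (r + 1) → MvPolynomial (Fin N) k)
    (c : MvPolynomial (Fin N) k) :
    (MvPolynomial (Fin (r + 1) ⊕ Fin N) k ⧸ Ideal.span
      (Set.range (fun _ : Unit => bil q - MvPolynomial.rename Sum.inr c))) ≃ₐ[k] Hyp q c :=
  Ideal.quotientEquivAlg _ _ (MvPolynomial.sumAlgEquiv k (Fin (r + 1)) (Fin N)) (by
    rw [Set.range_const, Ideal.map_span, Set.image_singleton]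
    congr 2
    have h1 := AlgHom.congr_fun (MvPolynomial.sumAlgEquiv_comp_rename_inr (R := k)
      (S₁ := Fin (r + 1)) (S₂ := Fin N)) c
    have h2 : MvPolynomial.sumAlgEquiv k (Fin (r + 1)) (Fin N)
        (MvPolynomial.rename Sum.inr c) = MvPolynomial.C c := h1
    change _ = MvPolynomial.sumAlgEquiv k (Fin (r + 1)) (Fin N)
      (bil q - MvPolynomial.rename Sum.inr c)
    rw [map_sub, sumAlgEquiv_bil, h2])

variable {F : Type v} [Field F] {T : CycleTheory.{u, v} k F}

/-- Algebraicity on the hypersurfaces which are linear in the variables `tᵢ`. -/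
theorem CycleTheory.IsStrict.linear_of_zeros (hT : T.IsValid) (hs : T.IsStrict) {N r : ℕ}
    (q : Fin (r + 1) → MvPolynomial (Fin N) k) (c : MvPolynomial (Fin N) k) (a : ℤ)
    (h : T.Algebraic (zeros k (Fin.cons c q : Fin (r + 2) → _)) a) :
    T.Algebraic (lin q c) (a + (r + 1)) := by
  have vS : IsVariety (aff k (MvPolynomial (Fin N) k)) := isVariety_aff _
  refine hT.algebraic_of_iso (affIso (linEquiv q c)).symm (isVariety_aff _) ?_
  exact hs.converse hT (compl_X (k := k) q).2.1 (compl_C q c) (isAffineBundle_bunC q c)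
    (isAffineBundle_triv _ (r + 1)) (isVariety_aff _) vS (isVariety_opn vS _)
    (isVariety_aff _) (by push_cast; ring) (hs.cl_space hT N (a + 1)) h

/-- The dimension of a proper closed subscheme of affine space. -/
theorem ringKrullDim_quotient {N : ℕ} (I : Ideal (MvPolynomial (Fin N) k)) (hI : I ≠ ⊥) {D : ℕ}
    (hN : N ≤ D + 1) : ringKrullDim (MvPolynomial (Fin N) k ⧸ I) ≤ D := by
  obtain ⟨f, hf, hf0⟩ := Submodule.exists_mem_ne_zero_of_ne_bot hI
  have h1 : ringKrullDim (MvPolynomial (Fin N) k ⧸ I) ≤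
      ringKrullDim (MvPolynomial (Fin N) k ⧸ Ideal.span {f}) :=
    ringKrullDim_le_of_surjective (Ideal.Quotient.factor
      ((Ideal.span_singleton_le_iff_mem I).2 hf)) (Ideal.Quotient.factor_surjective _)
  have h2 : ringKrullDim (MvPolynomial (Fin N) k ⧸ Ideal.span {f}) + 1 ≤
      ringKrullDim (MvPolynomial (Fin N) k) :=
    ringKrullDim_quotient_succ_le_of_nonZeroDivisor (mem_nonZeroDivisors_of_ne_zero hf0)
  rw [MvPolynomial.ringKrullDim_of_isNoetherianRing, ringKrullDim_eq_zero_of_field, zero_add,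
    Nat.card_eq_fintype_card, Fintype.card_fin] at h2
  refine h1.trans ?_
  have h3 : ringKrullDim (MvPolynomial (Fin N) k ⧸ Ideal.span {f}) + 1 ≤ (D : WithBot ℕ∞) + 1 :=
    h2.trans (by exact_mod_cast hN)
  generalize ringKrullDim (MvPolynomial (Fin N) k ⧸ Ideal.span {f}) = x at h3 ⊢
  induction x with
  | bot => exact bot_le
  | coe x =>
    have h4 : x + 1 ≤ (D : ℕ∞) + 1 := by exact_mod_cast h3
    have h5 : x ≤ D := (ENat.add_le_add_iff_right ENat.one_ne_top).1 h4
    exact_mod_cast h5

/-- Hypersurfaces which are linear in all but few variables. -/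
theorem CycleTheory.IsStrict.linear_of_dim (hT : T.IsValid) (hs : T.IsStrict) (D : ℕ)
    (hD : ∀ (B : Type u) [CommRing B] [Algebra k B], Algebra.FiniteType k B →
      ringKrullDim B ≤ D → ∀ a, T.Algebraic (aff k B) a) {N r : ℕ} (hN : N ≤ D + 1)
    (q : Fin (r + 1) → MvPolynomial (Fin N) k) (c : MvPolynomial (Fin N) k) (n : ℤ) :
    T.Algebraic (lin q c) n := by
  have h1 : n = (n - (r + 1)) + (r + 1) := by ring
  rw [h1]
  refine hs.linear_of_zeros hT q c _ ?_
  by_cases hI : Ideal.span (Set.range (Fin.cons c q : Fin (r + 2) → MvPolynomial (Fin N) k)) = ⊥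
  · refine hT.algebraic_of_iso (affIso (AlgEquiv.trans
      (AlgEquiv.quotientBot k (MvPolynomial (Fin N) k)).symm
        (Ideal.quotientEquivAlgOfEq k hI.symm))) (isVariety_aff _) ?_
    intro x _
    exact hs.cl_space hT N _ x
  · exact hD _ (by infer_instance) (ringKrullDim_quotient _ hI hN) _

/-- The hypersurfaces `∑ tᵢ qᵢ(x) = 0` with few variables `x`, weighted theories. -/
theorem CycleTheory.IsWeighted.hyp_of_dim (hT : T.IsValid) (hw : T.IsWeighted) (D : ℕ)
    (hD : ∀ (B : Type u) [CommRing B] [Algebra k B], Algebra.FiniteType k B →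
      ringKrullDim B ≤ D → ∀ a, T.Algebraic (aff k B) a) {N r : ℕ} (hN : N ≤ D + 1)
    (q : Fin (r + 1) → MvPolynomial (Fin N) k) (n : ℤ) (hn : n ≠ N + r) (hn' : n ≠ N + r + 1) :
    T.Algebraic (hyp q) n := by
  have h1 : n = (n - (r + 1)) + (r + 1) := by ring
  rw [h1]
  refine (hw.hyp_iff_zeros hT q _ (by omega) (by omega)).2 ?_
  by_cases hI : Ideal.span (Set.range q) = ⊥
  · refine hT.algebraic_of_iso (affIso (AlgEquiv.trans
      (AlgEquiv.quotientBot k (MvPolynomial (Fin N) k)).symm
        (Ideal.quotientEquivAlgOfEq k hI.symm))) (isVariety_aff _) ?_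
    intro x _
    have h2 := hT.affine_space N 0 (n - (r + 1)) (by omega)
    exact ⟨0, Subsingleton.elim _ _⟩
  · exact hD _ (by infer_instance) (ringKrullDim_quotient _ hI hN) _

end Pool.Agent.Y138.UC
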