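import Mathlib

/-!
# Homology theories with cycle classes on schemes over a field: definitions
-/

set_option autoImplicit false

open CategoryTheory AlgebraicGeometry

universe u v

namespace Pool.Agent.Y138.UC

/-- `f` is, locally on `B`, the projection from an affine space of dimension `r`: every point of `B`
lies in the range of an open immersion `w : Spec R ⟶ B` over which `f` is the projection
`Spec R[t₁, …, tᵣ] ⟶ Spec R`. -/
def IsAffineBundle (r : ℕ) {E B : Scheme.{u}} (f : E ⟶ B) : Prop :=
  ∀ b : B, ∃ (R : Type u) (_ : CommRing R) (w : Spec (.of R) ⟶ B)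
    (w' : Spec (.of (MvPolynomial (Fin r) R)) ⟶ E),
    IsOpenImmersion w ∧ b ∈ Set.range w ∧ IsOpenImmersion w' ∧
    Set.range w' = f ⁻¹' (Set.range w) ∧
    w' ≫ f = Spec.map (CommRingCat.ofHom MvPolynomial.C) ≫ w

/-- Schemes over the field `k`. -/
abbrev Sch (k : Type u) [Field k] : Type (u + 1) := Over (Spec (CommRingCat.of k))

variable {k : Type u} [Field k]

/-- The scheme `X` over `k` is separated and of finite type. -/
def IsVariety (X : Sch k) : Prop :=
  IsSeparated X.hom ∧ LocallyOfFiniteType X.hom ∧ QuasiCompact X.hom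

/-- `i` is a closed immersion. -/
def IsCl {Z X : Sch k} (i : Z ⟶ X) : Prop := IsClosedImmersion i.left

/-- `j` is an open immersion. -/
def IsOp {U X : Sch k} (j : U ⟶ X) : Prop := IsOpenImmersion j.left

/-- `f` is an affine bundle of rank `r`. -/
def IsBun {E B : Sch k} (f : E ⟶ B) (r : ℕ) : Prop := IsAffineBundle r f.left

/-- `i` is the inclusion of a closed subscheme and `j` the inclusion of its open complement. -/
def IsComplement {Z X U : Sch k} (i : Z ⟶ X) (j : U ⟶ X) : Prop :=
  IsCl i ∧ IsOp j ∧ Set.range i.left = (Set.range j.left)ᶜ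

variable (k) in
/-- The affine scheme of the `k`-algebra `A`, as a scheme over `k`. -/
noncomputable def aff (A : Type u) [CommRing A] [Algebra k A] : Sch k :=
  Over.mk (Spec.map (CommRingCat.ofHom (algebraMap k A)))

variable (k) in
/-- A system of `F`-vector spaces `M X n` for the schemes `X` over `k` and the integers `n`
(the dimension), with the push-forward along closed immersions, the restriction to open
subschemes and the pull-back along affine bundles (which shifts the dimension by the rank). -/
structure Functor (F : Type v) [Field F] where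
  M : Sch k → ℤ → ModuleCat.{v} F
  push : ∀ {Z X : Sch k} (i : Z ⟶ X), IsCl i → ∀ n, M Z n →ₗ[F] M X n
  res : ∀ {U X : Sch k} (j : U ⟶ X), IsOp j → ∀ n, M X n →ₗ[F] M U n
  pull : ∀ {E B : Sch k} (f : E ⟶ B) (r : ℕ), IsBun f r → ∀ n, M B n →ₗ[F] M E (n + r)

variable (k) in
/-- The data of a homology theory with cycle classes: `(H m).M X n` is the homology of `X` in degree
`2 n + m` with the twist `n`, `C.M X n` the group of cycles of dimension `n` modulo rational
equivalence with coefficients in `F`, `cl` the cycle class map, and `special X n` a space of special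
classes (the Hodge classes, or the Tate classes). -/
structure CycleTheory (F : Type v) [Field F] where
  H : ℤ → Functor.{u, v} k F
  C : Functor.{u, v} k F
  cl : ∀ (X : Sch k) (n : ℤ), C.M X n →ₗ[F] (H 0).M X n
  special : ∀ (X : Sch k) (n : ℤ), Submodule F ((H 0).M X n)

variable {F : Type v} [Field F]

section Maps

variable {V₁ V₂ V₃ V₄ : ModuleCat.{v} F}

/-- The sequence `V₁ → V₂ → V₃` is exact. -/
def Ex (f : V₁ →ₗ[F] V₂) (g : V₂ →ₗ[F] V₃) : Prop := Function.Exact f g

/-- The linear map is surjective. -/
def Sur (f : V₁ →ₗ[F] V₂) : Prop := Function.Surjective f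

/-- The linear map is injective. -/
def Inj (f : V₁ →ₗ[F] V₂) : Prop := Function.Injective f

/-- The square with the sides `f : V₁ → V₂`, `g : V₂ → V₄`, `f' : V₁ → V₃`, `g' : V₃ → V₄`
commutes. -/
def Square (f : V₁ →ₗ[F] V₂) (g : V₂ →ₗ[F] V₄) (f' : V₁ →ₗ[F] V₃) (g' : V₃ →ₗ[F] V₄) : Prop :=
  ∀ x, g (f x) = g' (f' x)

/-- The map takes the subspace `S₁` to the subspace `S₂`. -/
def Keeps (f : V₁ →ₗ[F] V₂) (S₁ : Submodule F V₁) (S₂ : Submodule F V₂) : Prop :=
  ∀ x ∈ S₁, f x ∈ S₂

/-- All preimages of elements of `S₂` are in `S₁`. -/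
def Reflects (f : V₁ →ₗ[F] V₂) (S₁ : Submodule F V₁) (S₂ : Submodule F V₂) : Prop :=
  ∀ x, f x ∈ S₂ → x ∈ S₁

/-- The elements of `S₂` have preimages. -/
def Lifts (f : V₁ →ₗ[F] V₂) (S₂ : Submodule F V₂) : Prop := ∀ y ∈ S₂, ∃ x, f x = y

/-- The elements of `S₂` in the kernel of `g` are images of elements of `S₁` under `f`. -/
def Strict (f : V₁ →ₗ[F] V₂) (g : V₂ →ₗ[F] V₃) (S₁ : Submodule F V₁) (S₂ : Submodule F V₂) :
    Prop :=
  ∀ x ∈ S₂, g x = 0 → ∃ z ∈ S₁, f z = x

end Maps

/-- The spaces are finite-dimensional. -/
def Functor.IsFinite (P : Functor.{u, v} k F) : Prop :=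
  ∀ X : Sch k, IsVariety X → ∀ n, Module.Finite F (P.M X n)

/-- For a closed subscheme and its open complement, the kernel of the restriction is the image of the
push-forward. -/
def Functor.IsExact (P : Functor.{u, v} k F) : Prop :=
  ∀ (Z X U : Sch k) (i : Z ⟶ X) (j : U ⟶ X), IsVariety X →
    ∀ h : IsComplement i j, ∀ n, Ex (P.push i h.1 n) (P.res j h.2.1 n)

/-- For a closed subscheme and its open complement, the restriction is surjective. -/
def Functor.IsRightExact (P : Functor.{u, v} k F) : Prop :=
  ∀ (Z X U : Sch k) (i : Z ⟶ X) (j : U ⟶ X), IsVariety X →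
    ∀ h : IsComplement i j, ∀ n, Sur (P.res j h.2.1 n)

/-- For a closed subscheme and its open complement there is a boundary map which continues the
sequence of `P` by that of `Q`. -/
def Functor.HasBoundary (P Q : Functor.{u, v} k F) : Prop :=
  ∀ (Z X U : Sch k) (i : Z ⟶ X) (j : U ⟶ X), IsVariety X → ∀ h : IsComplement i j, ∀ n,
    ∃ δ : P.M U n →ₗ[F] Q.M Z n, Ex (P.res j h.2.1 n) δ ∧ Ex δ (Q.push i h.1 n)

/-- The pull-back along affine bundles is surjective. -/
def Functor.PullSurjective (P : Functor.{u, v} k F) : Prop :=
  ∀ (E B : Sch k) (f : E ⟶ B) (r : ℕ) (hf : IsBun f r), IsVariety B → ∀ n, Sur (P.pull f r hf n)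

/-- The pull-back along affine bundles is injective. -/
def Functor.PullInjective (P : Functor.{u, v} k F) : Prop :=
  ∀ (E B : Sch k) (f : E ⟶ B) (r : ℕ) (hf : IsBun f r), IsVariety B → ∀ n, Inj (P.pull f r hf n)

/-- The pull-back from the base to an open subscheme `U` of an affine bundle is injective if `U` has
a section over the base. -/
def Functor.SectionInjective (P : Functor.{u, v} k F) : Prop :=
  ∀ (E B U : Sch k) (f : E ⟶ B) (r : ℕ) (hf : IsBun f r) (j : U ⟶ E) (hj : IsOp j) (s : B ⟶ U),
    s ≫ j ≫ f = 𝟙 B → IsVariety B → ∀ n, Inj (P.res j hj (n + r) ∘ₗ P.pull f r hf n)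

/-- The homology of the point in degree `2 n + m` vanishes for `2 n + m ≠ 0`. -/
def PointVanishing (H : ℤ → Functor.{u, v} k F) : Prop :=
  ∀ m n : ℤ, m + 2 * n ≠ 0 → Subsingleton ((H m).M (aff k k) n)

/-- The axioms for the homology groups: they are finite-dimensional; there is the long exact
sequence of a closed subscheme and its open complement; the pull-back along affine bundles is an
isomorphism; the pull-back from the base to an open subscheme `U` of an affine bundle is injective
if `U` has a section over the base; and the homology of the point is concentrated in degree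
zero. -/
structure IsHomology (H : ℤ → Functor.{u, v} k F) : Prop where
  isFinite : ∀ m, (H m).IsFinite
  isExact : ∀ m, (H m).IsExact
  boundary : ∀ m, (H (m + 1)).HasBoundary (H m)
  pull_inj : ∀ m, (H m).PullInjective
  pull_surj : ∀ m, (H m).PullSurjective
  sectionInj : ∀ m, (H m).SectionInjective
  pointVanishing : PointVanishing H

/-- There are only cycles of dimension zero on the point. -/
def PointCycles (C : Functor.{u, v} k F) : Prop :=
  ∀ n : ℤ, n ≠ 0 → Subsingleton (C.M (aff k k) n)

/-- The axioms for the cycle groups: the sequence of a closed subscheme and its open complement is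
exact and surjective on the right; the pull-back along affine bundles is surjective; on the point
there are only cycles of dimension zero. -/
structure IsChow (C : Functor.{u, v} k F) : Prop where
  isExact : C.IsExact
  isRightExact : C.IsRightExact
  pull_surj : C.PullSurjective
  pointCycles : PointCycles C

/-- The cycle class map is compatible with push-forward. -/
def CycleTheory.NatPush (T : CycleTheory.{u, v} k F) : Prop :=
  ∀ (Z X : Sch k) (i : Z ⟶ X) (hi : IsCl i) (n : ℤ),
    Square (T.C.push i hi n) (T.cl X n) (T.cl Z n) ((T.H 0).push i hi n)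

/-- The cycle class map is compatible with restriction. -/
def CycleTheory.NatRes (T : CycleTheory.{u, v} k F) : Prop :=
  ∀ (U X : Sch k) (j : U ⟶ X) (hj : IsOp j) (n : ℤ),
    Square (T.C.res j hj n) (T.cl U n) (T.cl X n) ((T.H 0).res j hj n)

/-- The cycle class map is compatible with pull-back. -/
def CycleTheory.NatPull (T : CycleTheory.{u, v} k F) : Prop :=
  ∀ (E B : Sch k) (f : E ⟶ B) (r : ℕ) (hf : IsBun f r) (n : ℤ),
    Square (T.C.pull f r hf n) (T.cl E (n + r)) (T.cl B n) ((T.H 0).pull f r hf n)

/-- Push-forward preserves the special classes. -/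
def CycleTheory.KeepsPush (T : CycleTheory.{u, v} k F) : Prop :=
  ∀ (Z X : Sch k) (i : Z ⟶ X) (hi : IsCl i) (n : ℤ),
    Keeps ((T.H 0).push i hi n) (T.special Z n) (T.special X n)

/-- Restriction preserves the special classes. -/
def CycleTheory.KeepsRes (T : CycleTheory.{u, v} k F) : Prop :=
  ∀ (U X : Sch k) (j : U ⟶ X) (hj : IsOp j) (n : ℤ),
    Keeps ((T.H 0).res j hj n) (T.special X n) (T.special U n)

/-- Pull-back preserves the special classes. -/
def CycleTheory.KeepsPull (T : CycleTheory.{u, v} k F) : Prop :=
  ∀ (E B : Sch k) (f : E ⟶ B) (r : ℕ) (hf : IsBun f r) (n : ℤ),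
    Keeps ((T.H 0).pull f r hf n) (T.special B n) (T.special E (n + r))

/-- All special classes of dimension `n` on `X` are algebraic. -/
def CycleTheory.Algebraic (T : CycleTheory.{u, v} k F) (X : Sch k) (n : ℤ) : Prop :=
  T.special X n ≤ LinearMap.range (T.cl X n)

/-- All cycle classes of dimension `n` on `X` are special. -/
def CycleTheory.ClSpecial (T : CycleTheory.{u, v} k F) (X : Sch k) (n : ℤ) : Prop :=
  LinearMap.range (T.cl X n) ≤ T.special X n

/-- The axioms for a homology theory with cycle classes: moreover the cycle class map is compatible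
with push-forward, restriction and pull-back, and these preserve the special classes. -/
structure CycleTheory.IsValid (T : CycleTheory.{u, v} k F) : Prop where
  homology : IsHomology T.H
  chow : IsChow T.C
  natPush : T.NatPush
  natRes : T.NatRes
  natPull : T.NatPull
  keepsPush : T.KeepsPush
  keepsRes : T.KeepsRes
  keepsPull : T.KeepsPull

/-- A special class which vanishes on the open complement of a closed subscheme is the push-forward
of a special class. -/
def CycleTheory.StrictPush (T : CycleTheory.{u, v} k F) : Prop :=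
  ∀ (Z X U : Sch k) (i : Z ⟶ X) (j : U ⟶ X), IsVariety X → ∀ h : IsComplement i j, ∀ n,
    Strict ((T.H 0).push i h.1 n) ((T.H 0).res j h.2.1 n) (T.special Z n) (T.special X n)

/-- A special class on an open subscheme is the restriction of a class. -/
def CycleTheory.LiftsRes (T : CycleTheory.{u, v} k F) : Prop :=
  ∀ (U X : Sch k) (j : U ⟶ X) (hj : IsOp j), IsVariety X →
    ∀ n, Lifts ((T.H 0).res j hj n) (T.special U n)

/-- A class whose pull-back along an affine bundle is special is special. -/
def CycleTheory.ReflectsPull (T : CycleTheory.{u, v} k F) : Prop :=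
  ∀ (E B : Sch k) (f : E ⟶ B) (r : ℕ) (hf : IsBun f r), IsVariety B →
    ∀ n, Reflects ((T.H 0).pull f r hf n) (T.special B n) (T.special E (n + r))

/-- A class whose push-forward is special is special, if the push-forward is injective. -/
def CycleTheory.ReflectsPush (T : CycleTheory.{u, v} k F) : Prop :=
  ∀ (Z X : Sch k) (i : Z ⟶ X) (hi : IsCl i), IsVariety X →
    ∀ n, Inj ((T.H 0).push i hi n) →
      Reflects ((T.H 0).push i hi n) (T.special Z n) (T.special X n)

/-- The special classes are weighted: special classes on open subschemes are restrictions of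
classes, and classes with special pull-back, or with special push-forward under an injective
push-forward, are special. -/
structure CycleTheory.IsWeighted (T : CycleTheory.{u, v} k F) : Prop where
  liftsRes : T.LiftsRes
  reflectsPull : T.ReflectsPull
  reflectsPush : T.ReflectsPush

/-- The further properties used for the strong form: every class in degree zero on the point is a
cycle class, cycle classes are special, and the special classes are weighted and strict. -/
structure CycleTheory.IsStrict (T : CycleTheory.{u, v} k F) : Prop where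
  point : Sur (T.cl (aff k k) 0)
  clSpecial : ∀ X : Sch k, IsVariety X → ∀ n, T.ClSpecial X n
  weighted : T.IsWeighted
  strictPush : T.StrictPush

variable (k) in
/-- The affine scheme over `k` defined by a family of polynomials over `k`. -/
noncomputable def zeros {σ ι : Type} (f : ι → MvPolynomial σ k) : Sch k :=
  aff k (MvPolynomial σ k ⧸ Ideal.span (Set.range f))

/-- The polynomial `t₀ q₀(x) + ⋯ + tᵣ qᵣ(x)` in the variables `t₀, …, tᵣ` (`Sum.inl`) and
`x₁, …, x_N` (`Sum.inr`). -/
noncomputable def bil {N r : ℕ} (q : Fin (r + 1) → MvPolynomial (Fin N) k) :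
    MvPolynomial (Fin (r + 1) ⊕ Fin N) k :=
  ∑ i, MvPolynomial.X (Sum.inl i) * MvPolynomial.rename Sum.inr (q i)

/-- The affine hypersurface `t₀ q₀(x) + ⋯ + tᵣ qᵣ(x) = 0` over `k`. -/
noncomputable def hyp {N r : ℕ} (q : Fin (r + 1) → MvPolynomial (Fin N) k) : Sch k :=
  zeros k (fun _ : Unit => bil q)

/-- The affine hypersurface `t₀ q₀(x) + ⋯ + tᵣ qᵣ(x) = c(x)` over `k`. -/
noncomputable def lin {N r : ℕ} (q : Fin (r + 1) → MvPolynomial (Fin N) k)
    (c : MvPolynomial (Fin N) k) : Sch k :=
  zeros k (fun _ : Unit => bil q - MvPolynomial.rename Sum.inr c)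

end Pool.Agent.Y138.UC
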