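import Pool.Agent.Y138.UC.Th

/-!
# Affine schemes over `k`
-/

set_option autoImplicit false

open CategoryTheory AlgebraicGeometry

universe u v

namespace Pool.Agent.Y138.UC

variable {k : Type u} [Field k]

/-- The isomorphism of an isomorphism of algebras. -/
noncomputable def affIso {A B : Type u} [CommRing A] [CommRing B] [Algebra k A] [Algebra k B]
    (e : A ≃ₐ[k] B) : aff k A ≅ aff k B where
  hom := affMap (e.symm : B →+* A) (RingHom.ext fun x => e.symm.commutes x)
  inv := affMap (e : A →+* B) (RingHom.ext fun x => e.commutes x)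
  hom_inv_id := by
    refine Over.OverMorphism.ext ?_
    change Spec.map (CommRingCat.ofHom (e.symm : B →+* A)) ≫
      Spec.map (CommRingCat.ofHom (e : A →+* B)) = 𝟙 _
    rw [← Spec.map_comp, ← CommRingCat.ofHom_comp]
    have h : (e.symm : B →+* A).comp (e : A →+* B) = RingHom.id A :=
      RingHom.ext fun x => e.symm_apply_apply x
    rw [h]
    exact Spec.map_id _
  inv_hom_id := by
    refine Over.OverMorphism.ext ?_
    change Spec.map (CommRingCat.ofHom (e : A →+* B)) ≫
      Spec.map (CommRingCat.ofHom (e.symm : B →+* A)) = 𝟙 _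
    rw [← Spec.map_comp, ← CommRingCat.ofHom_comp]
    have h : (e : A →+* B).comp (e.symm : B →+* A) = RingHom.id B :=
      RingHom.ext fun x => e.apply_symm_apply x
    rw [h]
    exact Spec.map_id _

/-- An affine scheme of finite type is the spectrum of an algebra of finite type. -/
theorem exists_aff_iso (E : Over (Spec (.of k))) [IsAffine E.left] (hE : IsVariety E) :
    ∃ (B : Type u) (_ : CommRing B) (_ : Algebra k B), Algebra.FiniteType k B ∧
      Nonempty (aff k B ≅ E) := by
  let φ : k →+* Γ(E.left, ⊤) := ((Scheme.ΓSpecIso (.of k)).inv ≫ E.hom.appTop).hom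
  let _ : Algebra k Γ(E.left, ⊤) := φ.toAlgebra
  have h1 : E.left.isoSpec.hom ≫ (aff k Γ(E.left, ⊤)).hom = E.hom := by
    have h2 : (aff k Γ(E.left, ⊤)).hom = Spec.map (E.hom.appTop) ≫
        Spec.map (Scheme.ΓSpecIso (.of k)).inv := by
      rw [← Spec.map_comp]
      rfl
    rw [h2, Scheme.isoSpec_hom, ← Category.assoc, ← Scheme.toSpecΓ_naturality, Category.assoc,
      ← SpecMap_ΓSpecIso_hom, ← Spec.map_comp, Iso.inv_hom_id, Spec.map_id, Category.comp_id]
  have h3 : (aff k Γ(E.left, ⊤)).hom = E.left.isoSpec.inv ≫ E.hom := by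
    rw [← h1, Iso.inv_hom_id_assoc]
  have h4 : LocallyOfFiniteType (aff k Γ(E.left, ⊤)).hom := by
    rw [h3]
    exact (MorphismProperty.cancel_left_of_respectsIso @LocallyOfFiniteType
      E.left.isoSpec.inv E.hom).2 hE.2.1
  have h5 : Algebra.FiniteType k Γ(E.left, ⊤) := by
    have h6 : LocallyOfFiniteType (Spec.map (CommRingCat.ofHom
      (algebraMap k Γ(E.left, ⊤)))) := h4
    rw [HasRingHomProperty.Spec_iff (P := @LocallyOfFiniteType)] at h6
    exact RingHom.finiteType_algebraMap.1 h6
  exact ⟨Γ(E.left, ⊤), inferInstance, inferInstance, h5,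
    ⟨(Over.isoMk E.left.isoSpec h1).symm⟩⟩

end Pool.Agent.Y138.UC
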