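import Mathlib

/-!
# Presentations of algebras of finite type by quadrics
-/

set_option autoImplicit false

open MvPolynomial

universe u

namespace Pool.Agent.Y138.UC

/-- The exponents of degree at most `D`. -/
abbrev ExpD (m D : ℕ) : Type := {α : Fin m →₀ ℕ // α.degree ≤ D}

instance finite_ex (m D : ℕ) : Finite (ExpD m D) :=
  (Finsupp.finite_of_degree_le (σ := Fin m) D).to_subtype

noncomputable instance fintype_ex (m D : ℕ) : Fintype (ExpD m D) := Fintype.ofFinite _

variable (k : Type u) [Field k] (m D : ℕ)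

/-- The linear form belonging to a polynomial. -/
noncomputable def linF (g : MvPolynomial (Fin m) k) : MvPolynomial (ExpD m D) k :=
  ∑ α : ExpD m D, C (coeff α.1 g) * X α

/-- The substitution of the monomials. -/
noncomputable def evM : MvPolynomial (ExpD m D) k →ₐ[k] MvPolynomial (Fin m) k :=
  aeval fun α => monomial α.1 1

variable {k m D}

theorem evM_linF (g : MvPolynomial (Fin m) k) (hg : g.totalDegree ≤ D) :
    evM k m D (linF k m D g) = g := by
  classical
  rw [linF, map_sum]
  ext β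
  rw [coeff_sum]
  have h1 : ∀ α : ExpD m D, coeff β (evM k m D (C (coeff α.1 g) * X α)) =
      if α.1 = β then coeff α.1 g else 0 := by
    intro α
    rw [map_mul, evM, aeval_X, ← algebraMap_eq, AlgHom.commutes, algebraMap_eq, C_mul_monomial,
      mul_one, coeff_monomial]
  rw [Finset.sum_congr rfl fun α _ => h1 α]
  by_cases hβ : β.degree ≤ D
  · rw [Finset.sum_eq_single (⟨β, hβ⟩ : ExpD m D)]
    · simp
    · intro α _ hα
      rw [if_neg]
      intro h
      exact hα (Subtype.ext h)
    · intro h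
      exact absurd (Finset.mem_univ _) h
  · have h2 : coeff β g = 0 := by
      apply coeff_eq_zero_of_totalDegree_lt
      have h3 : β.degree = ∑ i ∈ β.support, β i := rfl
      omega
    rw [h2]
    refine Finset.sum_eq_zero fun α _ => ?_
    rw [if_neg]
    rintro rfl
    exact hβ α.2

/-- The relations. -/
def RelS (G : Set (MvPolynomial (Fin m) k)) : Set (MvPolynomial (ExpD m D) k) :=
  ({p | ∃ α : ExpD m D, α.1 = 0 ∧ p = X α - 1} ∪
    {p | ∃ (α β γ : ExpD m D) (i : Fin m), β.1 = Finsupp.single i 1 ∧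
      γ.1 = α.1 + Finsupp.single i 1 ∧ p = X γ - X β * X α}) ∪ linF k m D '' G

variable {G : Set (MvPolynomial (Fin m) k)}

theorem finite_relS (hG : G.Finite) : (RelS (D := D) G).Finite := by
  refine Set.Finite.union (Set.Finite.union ?_ ?_) (hG.image _)
  · refine (Set.finite_range (fun α : ExpD m D => (X α - 1 : MvPolynomial (ExpD m D) k))).subset ?_
    rintro p ⟨α, _, rfl⟩
    exact ⟨α, rfl⟩
  · refine (Set.finite_range (fun t : ExpD m D × ExpD m D × ExpD m D =>
      (X t.2.2 - X t.2.1 * X t.1 : MvPolynomial (ExpD m D) k))).subset ?_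
    rintro p ⟨α, β, γ, i, _, _, rfl⟩
    exact ⟨⟨α, β, γ⟩, rfl⟩

theorem totalDegree_relS (p : MvPolynomial (ExpD m D) k) (hp : p ∈ RelS G) : p.totalDegree ≤ 2 := by
  rcases hp with (⟨α, _, rfl⟩ | ⟨α, β, γ, i, _, _, rfl⟩) | ⟨g, _, rfl⟩
  · refine (totalDegree_sub _ _).trans (max_le ?_ ?_)
    · rw [totalDegree_X]; norm_num
    · rw [totalDegree_one]; norm_num
  · refine (totalDegree_sub _ _).trans (max_le ?_ ((totalDegree_mul _ _).trans ?_))
    · rw [totalDegree_X]; norm_num
    · rw [totalDegree_X, totalDegree_X]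
  · refine totalDegree_finsetSum_le fun α _ => (totalDegree_mul _ _).trans ?_
    rw [totalDegree_C, totalDegree_X]
    norm_num

theorem evM_relS (hG : ∀ g ∈ G, g.totalDegree ≤ D) (p : MvPolynomial (ExpD m D) k)
    (hp : p ∈ RelS G) : evM k m D p ∈ Ideal.span G := by
  rcases hp with (⟨α, hα, rfl⟩ | ⟨α, β, γ, i, hβ, hγ, rfl⟩) | ⟨g, hg, rfl⟩
  · rw [map_sub, map_one, evM, aeval_X, hα]
    simp
  · rw [map_sub, map_mul, evM, aeval_X, aeval_X, aeval_X, hβ, hγ, monomial_mul, one_mul,
      add_comm α.1, sub_self]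
    exact zero_mem _
  · rw [evM_linF g (hG g hg)]
    exact Ideal.subset_span hg

/-- The quotient by the relations. -/
abbrev QuoS (G : Set (MvPolynomial (Fin m) k)) (D : ℕ) : Type u :=
  MvPolynomial (ExpD m D) k ⧸ Ideal.span (RelS (D := D) G)

/-- The exponent of a variable. -/
noncomputable def exV (hD : 1 ≤ D) (i : Fin m) : ExpD m D :=
  ⟨Finsupp.single i 1, by rw [Finsupp.degree_single]; exact hD⟩

/-- The map back. -/
noncomputable def psiS (G : Set (MvPolynomial (Fin m) k)) (hD : 1 ≤ D) :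
    MvPolynomial (Fin m) k →ₐ[k] QuoS G D :=
  aeval fun i => Ideal.Quotient.mk _ (X (exV hD i))

theorem psiS_monomial (hD : 1 ≤ D) : ∀ (n : ℕ) (α : ExpD m D), α.1.degree = n →
    psiS G hD (monomial α.1 1) = Ideal.Quotient.mk _ (X α) := by
  classical
  intro n
  induction n with
  | zero =>
    intro α hα
    have h0 : α.1 = 0 := (Finsupp.degree_eq_zero_iff _).1 hα
    have h1 : (Ideal.Quotient.mk (Ideal.span (RelS (D := D) G))) (X α - 1) = 0 :=
      Ideal.Quotient.eq_zero_iff_mem.2 (Ideal.subset_span (Or.inl (Or.inl ⟨α, h0, rfl⟩)))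
    rw [map_sub, map_one, sub_eq_zero] at h1
    rw [h1, h0]
    change psiS G hD 1 = 1
    exact map_one _
  | succ n ih =>
    intro α hα
    have h1 : ∃ i, α.1 i ≠ 0 := by
      by_contra hcon
      push Not at hcon
      have h2 : α.1 = 0 := Finsupp.ext hcon
      rw [h2, map_zero] at hα
      omega
    obtain ⟨i, hi⟩ := h1
    have h2 : α.1 = (α.1 - Finsupp.single i 1) + Finsupp.single i 1 := by
      ext j
      rw [Finsupp.add_apply, Finsupp.tsub_apply]
      rcases eq_or_ne i j with rfl | hij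
      · rw [Finsupp.single_eq_same]
        omega
      · rw [Finsupp.single_eq_of_ne (by first | exact hij | exact hij.symm)]
        omega
    have h3 : α.1.degree = (α.1 - Finsupp.single i 1).degree + 1 := by
      conv_lhs => rw [h2]
      rw [map_add, Finsupp.degree_single]
    set β : ExpD m D := ⟨α.1 - Finsupp.single i 1, by have := α.2; omega⟩ with hβ
    have h4 := ih β (by change (α.1 - Finsupp.single i 1).degree = n; omega)
    have h5 : (Ideal.Quotient.mk (Ideal.span (RelS (D := D) G))) (X α - X (exV hD i) * X β) = 0 :=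
      Ideal.Quotient.eq_zero_iff_mem.2 (Ideal.subset_span (Or.inl (Or.inr
        ⟨β, exV hD i, α, i, rfl, h2, rfl⟩)))
    rw [map_sub, map_mul, sub_eq_zero] at h5
    rw [h5, ← h4]
    have h6 : (monomial α.1 (1 : k)) = X i * monomial β.1 1 := by
      rw [X, monomial_mul, one_mul, add_comm]
      conv_lhs => rw [h2]
    rw [h6, map_mul]
    congr 1
    exact aeval_X _ _

theorem psiS_evM (hD : 1 ≤ D) (p : MvPolynomial (ExpD m D) k) :
    psiS G hD (evM k m D p) = Ideal.Quotient.mk _ p := by
  have h : (psiS G hD).comp (evM k m D) = Ideal.Quotient.mkₐ k _ := by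
    refine MvPolynomial.algHom_ext fun α => ?_
    rw [AlgHom.comp_apply, evM, aeval_X]
    exact psiS_monomial hD _ α rfl
  exact DFunLike.congr_fun h p

theorem van_ev (hG : ∀ g ∈ G, g.totalDegree ≤ D) (a : MvPolynomial (ExpD m D) k)
    (ha : a ∈ Ideal.span (RelS (D := D) G)) :
    ((Ideal.Quotient.mkₐ k (Ideal.span G)).comp (evM k m D)) a = 0 := by
  refine Submodule.span_induction ?_ ?_ ?_ ?_ ha
  · intro p hp
    exact Ideal.Quotient.eq_zero_iff_mem.2 (evM_relS hG p hp)
  · exact map_zero _
  · intro x y _ _ hx hy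
    rw [map_add, hx, hy, add_zero]
  · intro a x _ hx
    rw [smul_eq_mul, map_mul, hx, mul_zero]

theorem van_psi (hD : 1 ≤ D) (hG : ∀ g ∈ G, g.totalDegree ≤ D) (a : MvPolynomial (Fin m) k)
    (ha : a ∈ Ideal.span G) : psiS G hD a = 0 := by
  refine Submodule.span_induction ?_ ?_ ?_ ?_ ha
  · intro g hg
    have h1 := psiS_evM (G := G) hD (linF k m D g)
    rw [evM_linF g (hG g hg)] at h1
    rw [h1]
    exact Ideal.Quotient.eq_zero_iff_mem.2 (Ideal.subset_span (Or.inr ⟨g, hg, rfl⟩))
  · exact map_zero _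
  · intro x y _ _ hx hy
    rw [map_add, hx, hy, add_zero]
  · intro a x _ hx
    rw [smul_eq_mul, map_mul, hx, mul_zero]

/-- The presentation. -/
noncomputable def presS (hD : 1 ≤ D) (hG : ∀ g ∈ G, g.totalDegree ≤ D) :
    QuoS G D ≃ₐ[k] (MvPolynomial (Fin m) k ⧸ Ideal.span G) :=
  AlgEquiv.ofAlgHom
    (Ideal.Quotient.liftₐ _ ((Ideal.Quotient.mkₐ k (Ideal.span G)).comp (evM k m D)) (van_ev hG))
    (Ideal.Quotient.liftₐ _ (psiS G hD) (van_psi hD hG))
    (by
      refine Ideal.Quotient.algHom_ext _ (MvPolynomial.algHom_ext fun i => ?_)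
      have h1 : psiS G hD (X i) = Ideal.Quotient.mk _ (X (exV hD i)) := aeval_X _ _
      have h2 : evM k m D (X (exV hD i)) = X i := by
        rw [evM, aeval_X]
        rfl
      refine (congrArg (Ideal.Quotient.liftₐ (Ideal.span (RelS G))
        ((Ideal.Quotient.mkₐ k (Ideal.span G)).comp (evM k m D)) (van_ev hG)) h1).trans ?_
      exact congrArg (Ideal.Quotient.mk (Ideal.span G)) h2)
    (by
      refine Ideal.Quotient.algHom_ext _ (MvPolynomial.algHom_ext fun α => ?_)
      exact psiS_evM (G := G) hD (X α))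

/-- Every algebra of finite type has a presentation by quadrics. -/
theorem exists_presentation (k B : Type u) [Field k] [CommRing B] [Algebra k B]
    [hB : Algebra.FiniteType k B] (N₀ : ℕ) :
    ∃ (N r : ℕ) (q : Fin (r + 1) → MvPolynomial (Fin N) k), N₀ ≤ N ∧
      (∀ i, (q i).totalDegree ≤ 2) ∧
      Nonempty ((MvPolynomial (Fin N) k ⧸ Ideal.span (Set.range q)) ≃ₐ[k] B) := by
  classical
  obtain ⟨n, f₀, hf₀⟩ := Algebra.FiniteType.iff_quotient_mvPolynomial''.1 hB
  -- more variables
  have hinj : Function.Injective (Fin.castAdd N₀ : Fin n → Fin (n + N₀)) :=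
    Fin.castAdd_injective n N₀
  set f : MvPolynomial (Fin (n + N₀)) k →ₐ[k] B := f₀.comp (killCompl hinj) with hf
  have hfs : Function.Surjective f := by
    intro y
    obtain ⟨x, rfl⟩ := hf₀ y
    exact ⟨rename _ x, by rw [hf, AlgHom.comp_apply, killCompl_rename_app]⟩
  obtain ⟨G, hG⟩ := (IsNoetherian.noetherian (RingHom.ker f) : (RingHom.ker f).FG)
  set D := max 1 (G.sup totalDegree) with hD
  have hD1 : 1 ≤ D := le_max_left _ _
  have hDG : ∀ g ∈ (G : Set (MvPolynomial (Fin (n + N₀)) k)), g.totalDegree ≤ D := by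
    intro g hg
    exact (Finset.le_sup (f := totalDegree) hg).trans (le_max_right _ _)
  have e1 := presS (G := (G : Set (MvPolynomial (Fin (n + N₀)) k))) hD1 hDG
  have e2 : (MvPolynomial (Fin (n + N₀)) k ⧸
      Ideal.span (G : Set (MvPolynomial (Fin (n + N₀)) k))) ≃ₐ[k] B := by
    have hG' : Ideal.span (G : Set (MvPolynomial (Fin (n + N₀)) k)) = RingHom.ker f := hG
    rw [hG']
    exact Ideal.quotientKerAlgEquivOfSurjective hfs
  set c := Fintype.card (ExpD (n + N₀) D) with hc
  set e : ExpD (n + N₀) D ≃ Fin c := Fintype.equivFin (ExpD (n + N₀) D) with he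
  have hcard : N₀ ≤ c := by
    have h1 : Function.Injective (exV hD1 : Fin (n + N₀) → ExpD (n + N₀) D) := by
      intro i j hij
      have h2 := congrArg Subtype.val hij
      exact Finsupp.single_left_injective one_ne_zero h2
    have h2 := Fintype.card_le_of_injective _ h1
    rw [Fintype.card_fin] at h2
    omega
  -- the relations as a finite family
  set Q : Set (MvPolynomial (Fin (c)) k) :=
    (renameEquiv k e) '' (RelS (D := D) (G : Set (MvPolynomial (Fin (n + N₀)) k))) with hQ
  have hQf : Q.Finite := (finite_relS (D := D) G.finite_toSet).image _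
  obtain ⟨r, q', hq'⟩ : ∃ (r : ℕ) (q' : Fin r → MvPolynomial (Fin (c)) k),
      Set.range q' = Q := by
    have := hQf.fintype
    refine ⟨Fintype.card Q, fun i => ((Fintype.equivFin Q).symm i).1, ?_⟩
    ext p
    constructor
    · rintro ⟨i, rfl⟩
      exact ((Fintype.equivFin Q).symm i).2
    · intro hp
      exact ⟨Fintype.equivFin Q ⟨p, hp⟩, by simp⟩
  refine ⟨c, r, Fin.cons 0 q', hcard, ?_, ⟨AlgEquiv.trans ?_ (e1.trans e2)⟩⟩
  · intro i
    refine Fin.cases ?_ (fun j => ?_) i
    · rw [Fin.cons_zero, totalDegree_zero]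
      norm_num
    · rw [Fin.cons_succ]
      have h1 : q' j ∈ Q := by rw [← hq']; exact ⟨j, rfl⟩
      obtain ⟨p, hp, hpj⟩ := h1
      rw [← hpj]
      exact (totalDegree_rename_le e p).trans (totalDegree_relS p hp)
  · refine (Ideal.quotientEquivAlg _ _ (renameEquiv k e) ?_).symm
    rw [Fin.range_cons, hq', Ideal.map_span]
    apply le_antisymm
    · rw [Ideal.span_le]
      rintro p (rfl | hp)
      · exact zero_mem _
      · exact Ideal.subset_span hp
    · exact Ideal.span_mono fun p hp => Or.inr hp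

end Pool.Agent.Y138.UC
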