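import Pool.Agent.Y138.UC.Aff
import Pool.Agent.Y138.UC.Iso
import Pool.Agent.Y138.UC.Pres

/-!
# The reduction to cubic hypersurfaces
-/

set_option autoImplicit false

open CategoryTheory AlgebraicGeometry

universe u v

namespace Pool.Agent.Y138.UC

variable {k : Type u} [Field k] {F : Type v} [Field F] {T : CycleTheory.{u, v} k F}

theorem sumAlgEquiv_bil {N r : ℕ} (q : Fin (r + 1) → MvPolynomial (Fin N) k) :
    MvPolynomial.sumAlgEquiv k (Fin (r + 1)) (Fin N) (bil q) = phi q := by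
  rw [bil, phi, map_sum]
  refine Finset.sum_congr rfl fun i _ => ?_
  have h1 := AlgHom.congr_fun (MvPolynomial.sumAlgEquiv_comp_rename_inr (R := k)
    (S₁ := Fin (r + 1)) (S₂ := Fin N)) (q i)
  rw [map_mul, MvPolynomial.sumAlgEquiv_X_inl, mul_comm]
  congr 1

/-- The coordinate ring of the hypersurface. -/
noncomputable def hypEquiv {N r : ℕ} (q : Fin (r + 1) → MvPolynomial (Fin N) k) :
    (MvPolynomial (Fin (r + 1) ⊕ Fin N) k ⧸ Ideal.span (Set.range (fun _ : Unit => bil q))) ≃ₐ[k]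
      Hyp q 0 :=
  Ideal.quotientEquivAlg _ _ (MvPolynomial.sumAlgEquiv k (Fin (r + 1)) (Fin N)) (by
    rw [Set.range_const, Ideal.map_span, Set.image_singleton, MvPolynomial.C_0, sub_zero]
    congr 2
    exact (sumAlgEquiv_bil q).symm)

/-- The hypersurface and `Hyp q 0`. -/
noncomputable def hypIso {N r : ℕ} (q : Fin (r + 1) → MvPolynomial (Fin N) k) :
    hyp q ≅ aff k (Hyp q 0) := affIso (hypEquiv q)

theorem finiteType_zeros {N r : ℕ} (q : Fin (r + 1) → MvPolynomial (Fin N) k) :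
    IsVariety (zeros k q) := isVariety_aff _

theorem isVariety_hyp {N r : ℕ} (q : Fin (r + 1) → MvPolynomial (Fin N) k) :
    IsVariety (hyp q) := isVariety_aff _

/-- Algebraicity on the hypersurface implies algebraicity on the zeros of the `qᵢ`. -/
theorem CycleTheory.IsValid.zeros_of_hyp (hT : T.IsValid) {N r : ℕ}
    (q : Fin (r + 1) → MvPolynomial (Fin N) k) (a : ℤ) (ha : a ≠ N) (ha' : a + 1 ≠ N)
    (h : T.Algebraic (hyp q) (a + (r + 1))) : T.Algebraic (zeros k q) a := by
  refine hT.space_case q a ha ha' (hT.algebraic_of_iso (hypIso q) (isVariety_aff _) ?_)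
  push_cast
  exact h

/-- All affine schemes of finite type. -/
theorem CycleTheory.IsValid.affine_of_cubic (hT : T.IsValid)
    (h : ∀ (N r : ℕ) (q : Fin (r + 1) → MvPolynomial (Fin N) k),
      (∀ i, (q i).totalDegree ≤ 2) → ∀ n, T.Algebraic (hyp q) n)
    (E : Over (Spec (.of k))) [IsAffine E.left] (hE : IsVariety E) (a : ℤ) :
    T.Algebraic E a := by
  obtain ⟨B, _, _, hB, ⟨e⟩⟩ := exists_aff_iso E hE
  refine hT.algebraic_of_iso e hE ?_
  obtain ⟨N, r, q, hN, hq, ⟨e'⟩⟩ := exists_presentation k B (a + 2).toNat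
  refine hT.algebraic_of_iso (affIso e') (isVariety_aff B) ?_
  exact hT.zeros_of_hyp q a (by omega) (by omega) (h N r q hq _)

end Pool.Agent.Y138.UC
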