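import Pool.Agent.Y138.UC.Wrap

/-!
# Geometry: open immersions and affine bundles of affine schemes
-/

set_option autoImplicit false

open CategoryTheory AlgebraicGeometry PrimeSpectrum

universe u v

namespace Pool.Agent.Y138.UC

section Rings

variable {R Q : Type u} [CommRing R] [CommRing Q]

/-- A ring homomorphism which is a localization away from `f`. -/
theorem isOpenImmersion_of_inverse (θ : R →+* Q) (f : R) (hu : IsUnit (θ f))
    (ψ : Q →+* Localization.Away f) (h1 : ψ.comp θ = algebraMap R (Localization.Away f))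
    (h2 : (IsLocalization.Away.lift f hu).comp ψ = RingHom.id Q) :
    IsOpenImmersion (Spec.map (CommRingCat.ofHom θ)) ∧
      Set.range (Spec.map (CommRingCat.ofHom θ)) = (basicOpen f : Set (PrimeSpectrum R)) := by
  have h3 : ψ.comp (IsLocalization.Away.lift f hu) = RingHom.id (Localization.Away f) := by
    refine IsLocalization.ringHom_ext (Submonoid.powers f) ?_
    rw [RingHom.comp_assoc, IsLocalization.Away.lift_comp, h1]
    rfl
  set e : Localization.Away f ≃+* Q := RingEquiv.ofRingHom _ _ h2 h3 with he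
  have h4 : θ = (e : Localization.Away f →+* Q).comp (algebraMap R _) := by
    ext x
    change θ x = IsLocalization.Away.lift f hu (algebraMap R _ x)
    rw [IsLocalization.Away.lift_eq]
  have h5 : CommRingCat.ofHom θ = CommRingCat.ofHom (algebraMap R (Localization.Away f)) ≫
      e.toCommRingCatIso.hom := by
    rw [h4]; rfl
  rw [h5, Spec.map_comp]
  refine ⟨inferInstance, ?_⟩
  have h6 := PrimeSpectrum.localization_away_comap_range (Localization.Away f) f
  rw [← h6]
  ext x
  constructor
  · rintro ⟨y, rfl⟩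
    exact ⟨(Spec.map e.toCommRingCatIso.hom) y, rfl⟩
  · rintro ⟨y, rfl⟩
    obtain ⟨z, rfl⟩ := (Spec.map e.toCommRingCatIso.hom).surjective y
    exact ⟨z, rfl⟩

end Rings

section Bundle

/-- A sufficient condition for an affine bundle over an open subscheme of an affine scheme. -/
theorem isAffineBundle_of_local {A R : Type u} [CommRing A] [CommRing R] (g : A →+* R)
    (U : (Spec (.of A)).Opens) {E : Scheme.{u}} (jE : E ⟶ Spec (.of R)) [IsOpenImmersion jE]
    (f : E ⟶ U.toScheme) (sq : f ≫ U.ι = jE ≫ Spec.map (CommRingCat.ofHom g))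
    (hr : Set.range jE = (Spec.map (CommRingCat.ofHom g)) ⁻¹' (U : Set (Spec (.of A)))) (r : ℕ)
    (hloc : ∀ x ∈ U, ∃ a : A, x ∈ basicOpen a ∧
      (basicOpen a : Set (PrimeSpectrum A)) ⊆ (U : Set (Spec (.of A))) ∧
      ∃ θ : R →+* MvPolynomial (Fin r) (Localization.Away a),
        IsOpenImmersion (Spec.map (CommRingCat.ofHom θ)) ∧
        Set.range (Spec.map (CommRingCat.ofHom θ)) = (basicOpen (g a) : Set (PrimeSpectrum R)) ∧
        θ.comp g = MvPolynomial.C.comp (algebraMap A (Localization.Away a))) :
    IsAffineBundle r f := by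
  intro b
  obtain ⟨a, hxa, haU, θ, hθ, hθr, hθc⟩ := hloc (U.ι b) b.2
  have hwr : Set.range (Spec.map (CommRingCat.ofHom (algebraMap A (Localization.Away a)))) =
      (basicOpen a : Set (PrimeSpectrum A)) :=
    PrimeSpectrum.localization_away_comap_range (Localization.Away a) a
  have hUr : Set.range U.ι = (U : Set (Spec (.of A))) := by
    simp
  have H1 : Set.range (Spec.map (CommRingCat.ofHom (algebraMap A (Localization.Away a)))) ⊆
      Set.range U.ι := by rw [hwr, hUr]; exact haU
  have H2 : Set.range (Spec.map (CommRingCat.ofHom θ)) ⊆ Set.range jE := by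
    rw [hθr, hr]
    intro x hx
    exact haU hx
  set w := IsOpenImmersion.lift U.ι (Spec.map (CommRingCat.ofHom
    (algebraMap A (Localization.Away a)))) H1 with hw
  set w' := IsOpenImmersion.lift jE (Spec.map (CommRingCat.ofHom θ)) H2 with hw'
  have ew : w ≫ U.ι = Spec.map (CommRingCat.ofHom (algebraMap A (Localization.Away a))) :=
    IsOpenImmersion.lift_fac _ _ _
  have ew' : w' ≫ jE = Spec.map (CommRingCat.ofHom θ) := IsOpenImmersion.lift_fac _ _ _
  have i1 : IsOpenImmersion w := by
    have : IsOpenImmersion (w ≫ U.ι) := by rw [ew]; infer_instance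
    exact IsOpenImmersion.of_comp w U.ι
  have i2 : IsOpenImmersion w' := by
    have : IsOpenImmersion (w' ≫ jE) := by rw [ew']; exact hθ
    exact IsOpenImmersion.of_comp w' jE
  have hfac : ∀ y, U.ι (w y) = Spec.map (CommRingCat.ofHom
      (algebraMap A (Localization.Away a))) y := fun y => by rw [← ew]; rfl
  have hfac' : ∀ y, jE (w' y) = Spec.map (CommRingCat.ofHom θ) y := fun y => by
    rw [← ew']; rfl
  have hsq : ∀ y, U.ι (f y) = Spec.map (CommRingCat.ofHom g) (jE y) := fun y => by
    have := congrArg (fun h : E ⟶ Spec (.of A) => h y) sq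
    exact this
  refine ⟨Localization.Away a, inferInstance, w, w', i1, ?_, i2, ?_, ?_⟩
  · have h1 : U.ι b ∈ Set.range (Spec.map (CommRingCat.ofHom
        (algebraMap A (Localization.Away a)))) := by rw [hwr]; exact hxa
    obtain ⟨y, hy⟩ := h1
    refine ⟨y, U.ι.isOpenEmbedding.injective ?_⟩
    rw [← hy]
    exact hfac y
  · ext x
    constructor
    · rintro ⟨y, rfl⟩
      have h1 : Spec.map (CommRingCat.ofHom θ) y ∈ (basicOpen (g a) : Set (PrimeSpectrum R)) := by
        rw [← hθr]; exact ⟨y, rfl⟩
      have h2 : U.ι (f (w' y)) ∈ (basicOpen a : Set (PrimeSpectrum A)) := by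
        rw [hsq, hfac']; exact h1
      rw [← hwr] at h2
      obtain ⟨z, hz⟩ := h2
      refine ⟨z, U.ι.isOpenEmbedding.injective ?_⟩
      rw [← hz]
      exact hfac z
    · rintro ⟨z, hz⟩
      have h1 : jE x ∈ Set.range (Spec.map (CommRingCat.ofHom θ)) := by
        rw [hθr]
        have h2 : U.ι (f x) ∈ (basicOpen a : Set (PrimeSpectrum A)) := by
          rw [← hwr, ← hz]
          exact ⟨z, (hfac z).symm⟩
        rw [hsq] at h2
        exact h2
      obtain ⟨y, hy⟩ := h1
      refine ⟨y, jE.isOpenEmbedding.injective ?_⟩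
      rw [← hy]
      exact hfac' y
  · rw [← cancel_mono U.ι, Category.assoc, Category.assoc, sq, ← Category.assoc, ew', ew,
      ← Spec.map_comp, ← Spec.map_comp, ← CommRingCat.ofHom_comp, ← CommRingCat.ofHom_comp, hθc]

end Bundle

end Pool.Agent.Y138.UC
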