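import Pool.Agent.Y138.UC.Lin

/-!
# The complement of `∑ tᵢ qᵢ = 0` is the product of `∑ tᵢ qᵢ = 1` and of the punctured line
-/

set_option autoImplicit false

open CategoryTheory AlgebraicGeometry PrimeSpectrum

universe u v

namespace Pool.Agent.Y138.UC

variable {A : Type u} [CommRing A] {r : ℕ} (q : Fin (r + 1) → A)

/-- The coordinate ring of the product of `∑ tᵢ qᵢ = 1` with the line. -/
abbrev LinR : Type u := MvPolynomial (Fin 1) (Hyp q 1)

/-- The coordinate ring of the product of `∑ tᵢ qᵢ = 1` with the punctured line. -/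
abbrev GmR : Type u := Localization.Away (MvPolynomial.X 0 : LinR q)

theorem phi_mk : (Ideal.Quotient.mk (Ideal.span {phi q - MvPolynomial.C (1 : A)}) (phi q)) = 1 := by
  have h1 : (Ideal.Quotient.mk (Ideal.span {phi q - MvPolynomial.C (1 : A)}))
      (phi q - MvPolynomial.C 1) = 0 :=
    Ideal.Quotient.eq_zero_iff_mem.2 (Ideal.subset_span rfl)
  rw [map_sub, sub_eq_zero, MvPolynomial.C_1, map_one] at h1
  exact h1

/-- The map to the product. -/
noncomputable def thetaG : MvPolynomial (Fin (r + 1)) A →+* GmR q :=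
  MvPolynomial.eval₂Hom ((algebraMap (LinR q) (GmR q)).comp (MvPolynomial.C.comp (strH q 1)))
    (fun j => algebraMap (LinR q) (GmR q)
      (MvPolynomial.C (Ideal.Quotient.mk _ (MvPolynomial.X j)) * MvPolynomial.X 0))

theorem thetaG_C (a : A) : thetaG q (MvPolynomial.C a) =
    algebraMap (LinR q) (GmR q) (MvPolynomial.C (strH q 1 a)) := by
  rw [thetaG, MvPolynomial.eval₂Hom_C]; rfl

theorem thetaG_X (j : Fin (r + 1)) : thetaG q (MvPolynomial.X j) =
    algebraMap (LinR q) (GmR q)
      (MvPolynomial.C (Ideal.Quotient.mk _ (MvPolynomial.X j)) * MvPolynomial.X 0) := by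
  rw [thetaG, MvPolynomial.eval₂Hom_X']

theorem thetaG_phi : thetaG q (phi q) = algebraMap (LinR q) (GmR q) (MvPolynomial.X 0) := by
  have h1 : thetaG q (phi q) = algebraMap (LinR q) (GmR q)
      (MvPolynomial.C (Ideal.Quotient.mk _ (phi q)) * MvPolynomial.X 0) := by
    have h2 : ∀ y : Fin (r + 1), thetaG q (MvPolynomial.C (q y) * MvPolynomial.X y) =
        algebraMap (LinR q) (GmR q) (MvPolynomial.C (Ideal.Quotient.mk _
          (MvPolynomial.C (q y) * MvPolynomial.X y)) * MvPolynomial.X 0) := by
      intro y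
      rw [map_mul, thetaG_C, thetaG_X, ← map_mul, ← mul_assoc, ← map_mul]
      rfl
    calc thetaG q (phi q) = ∑ y, thetaG q (MvPolynomial.C (q y) * MvPolynomial.X y) :=
          map_sum _ _ _
      _ = ∑ y, algebraMap (LinR q) (GmR q) (MvPolynomial.C (Ideal.Quotient.mk _
          (MvPolynomial.C (q y) * MvPolynomial.X y)) * MvPolynomial.X 0) :=
          Finset.sum_congr rfl fun y _ => h2 y
      _ = algebraMap (LinR q) (GmR q) (MvPolynomial.C (∑ y, Ideal.Quotient.mk _
          (MvPolynomial.C (q y) * MvPolynomial.X y)) * MvPolynomial.X 0) := by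
          rw [← map_sum, ← Finset.sum_mul, ← map_sum]
      _ = algebraMap (LinR q) (GmR q)
          (MvPolynomial.C (Ideal.Quotient.mk _ (phi q)) * MvPolynomial.X 0) := by
          rw [← map_sum]
          rfl
  have h3 : (MvPolynomial.C (Ideal.Quotient.mk _ (phi q) : Hyp q 1) : LinR q) = 1 :=
    (congrArg MvPolynomial.C (phi_mk q)).trans MvPolynomial.C_1
  rw [h1, h3, one_mul]

theorem isUnit_thetaG : IsUnit (thetaG q (phi q)) := by
  rw [thetaG_phi]
  exact IsLocalization.Away.algebraMap_isUnit _

/-- The map from the hypersurface `∑ tᵢ qᵢ = 1`. -/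
noncomputable def rhoG : Hyp q 1 →+* Localization.Away (phi q) :=
  Ideal.Quotient.lift _ (MvPolynomial.eval₂Hom
    ((algebraMap (MvPolynomial (Fin (r + 1)) A) (Localization.Away (phi q))).comp MvPolynomial.C)
    (fun j => algebraMap (MvPolynomial (Fin (r + 1)) A) (Localization.Away (phi q))
      (MvPolynomial.X j) * IsLocalization.Away.invSelf (phi q))) (by
    intro x hx
    refine Submodule.span_induction ?_ ?_ ?_ ?_ hx
    · rintro _ rfl
      rw [map_sub, MvPolynomial.C_1, map_one, sub_eq_zero]
      have h2 : ∀ y : Fin (r + 1), MvPolynomial.eval₂Hom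
          ((algebraMap (MvPolynomial (Fin (r + 1)) A) (Localization.Away (phi q))).comp
            MvPolynomial.C)
          (fun j => algebraMap (MvPolynomial (Fin (r + 1)) A) (Localization.Away (phi q))
            (MvPolynomial.X j) * IsLocalization.Away.invSelf (phi q))
          (MvPolynomial.C (q y) * MvPolynomial.X y) =
          algebraMap (MvPolynomial (Fin (r + 1)) A) (Localization.Away (phi q))
            (MvPolynomial.C (q y) * MvPolynomial.X y) *
              IsLocalization.Away.invSelf (phi q) := by
        intro y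
        rw [map_mul, MvPolynomial.eval₂Hom_C, MvPolynomial.eval₂Hom_X', map_mul, mul_assoc]
        rfl
      have h3 : MvPolynomial.eval₂Hom
          ((algebraMap (MvPolynomial (Fin (r + 1)) A) (Localization.Away (phi q))).comp
            MvPolynomial.C)
          (fun j => algebraMap (MvPolynomial (Fin (r + 1)) A) (Localization.Away (phi q))
            (MvPolynomial.X j) * IsLocalization.Away.invSelf (phi q)) (phi q) =
          algebraMap (MvPolynomial (Fin (r + 1)) A) (Localization.Away (phi q)) (phi q) *
              IsLocalization.Away.invSelf (phi q) := by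
        refine (map_sum _ _ _).trans ((Finset.sum_congr rfl fun y _ => h2 y).trans ?_)
        rw [← Finset.sum_mul, ← map_sum]
        rfl
      rw [h3, IsLocalization.Away.mul_invSelf]
    · exact map_zero _
    · intro x y _ _ hx hy
      rw [map_add, hx, hy, add_zero]
    · intro a x _ hx
      rw [smul_eq_mul, map_mul, hx, mul_zero])

theorem rhoG_strH (a : A) : rhoG q (strH q 1 a) =
    algebraMap (MvPolynomial (Fin (r + 1)) A) (Localization.Away (phi q))
      (MvPolynomial.C a) := by
  change rhoG q (Ideal.Quotient.mk _ (MvPolynomial.C a)) = _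
  rw [rhoG, Ideal.Quotient.lift_mk, MvPolynomial.eval₂Hom_C]
  rfl

theorem rhoG_X (j : Fin (r + 1)) : rhoG q (Ideal.Quotient.mk _ (MvPolynomial.X j)) =
    algebraMap (MvPolynomial (Fin (r + 1)) A) (Localization.Away (phi q))
      (MvPolynomial.X j) * IsLocalization.Away.invSelf (phi q) := by
  rw [rhoG, Ideal.Quotient.lift_mk, MvPolynomial.eval₂Hom_X']

/-- The map from the product with the line. -/
noncomputable def psi0 : LinR q →+* Localization.Away (phi q) :=
  MvPolynomial.eval₂Hom (rhoG q) (fun _ => algebraMap (MvPolynomial (Fin (r + 1)) A) _ (phi q))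

theorem psi0_X (j : Fin 1) : psi0 q (MvPolynomial.X j) =
    algebraMap (MvPolynomial (Fin (r + 1)) A) (Localization.Away (phi q)) (phi q) := by
  rw [psi0, MvPolynomial.eval₂Hom_X']

theorem psi0_C (x : Hyp q 1) : psi0 q (MvPolynomial.C x) = rhoG q x := by
  rw [psi0, MvPolynomial.eval₂Hom_C]

theorem isUnit_psi0 : IsUnit (psi0 q (MvPolynomial.X 0)) := by
  rw [psi0_X]
  exact IsLocalization.Away.algebraMap_isUnit _

/-- The inverse. -/
noncomputable def psiG : GmR q →+* Localization.Away (phi q) :=
  IsLocalization.Away.lift (MvPolynomial.X 0 : LinR q) (isUnit_psi0 q)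

theorem psiG_algebraMap (x : LinR q) : psiG q (algebraMap (LinR q) (GmR q) x) = psi0 q x :=
  IsLocalization.Away.lift_eq _ _ _

theorem psiG_comp : (psiG q).comp (thetaG q) =
    algebraMap (MvPolynomial (Fin (r + 1)) A) (Localization.Away (phi q)) := by
  refine MvPolynomial.ringHom_ext ?_ ?_
  · intro a
    rw [RingHom.comp_apply, thetaG_C, psiG_algebraMap, psi0_C, rhoG_strH]
  · intro j
    rw [RingHom.comp_apply, thetaG_X, psiG_algebraMap, map_mul, psi0_C, psi0_X, rhoG_X,
      mul_assoc, mul_comm (IsLocalization.Away.invSelf (phi q)),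
      IsLocalization.Away.mul_invSelf, mul_one]

theorem lift_comp_psiG : (IsLocalization.Away.lift (phi q) (isUnit_thetaG q)).comp (psiG q) =
    RingHom.id (GmR q) := by
  have hlift : ∀ x, IsLocalization.Away.lift (phi q) (isUnit_thetaG q)
      (algebraMap (MvPolynomial (Fin (r + 1)) A) (Localization.Away (phi q)) x) = thetaG q x :=
    fun x => IsLocalization.Away.lift_eq _ _ _
  have hinv : algebraMap (LinR q) (GmR q) (MvPolynomial.X 0) *
      IsLocalization.Away.lift (phi q) (isUnit_thetaG q)
        (IsLocalization.Away.invSelf (S := Localization.Away (phi q)) (phi q)) = 1 := by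
    rw [← thetaG_phi, ← hlift, ← map_mul, IsLocalization.Away.mul_invSelf, map_one]
  refine IsLocalization.ringHom_ext (Submonoid.powers (MvPolynomial.X 0 : LinR q)) ?_
  refine MvPolynomial.ringHom_ext ?_ ?_
  · intro x
    have h1 : (((IsLocalization.Away.lift (phi q) (isUnit_thetaG q)).comp (psiG q)).comp
        (algebraMap (LinR q) (GmR q))).comp (MvPolynomial.C : Hyp q 1 →+* LinR q) =
        (algebraMap (LinR q) (GmR q)).comp (MvPolynomial.C : Hyp q 1 →+* LinR q) := by
      refine Ideal.Quotient.ringHom_ext (MvPolynomial.ringHom_ext ?_ ?_)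
      · intro a
        change IsLocalization.Away.lift (phi q) (isUnit_thetaG q)
          (psiG q (algebraMap (LinR q) (GmR q) (MvPolynomial.C (strH q 1 a)))) =
          algebraMap (LinR q) (GmR q) (MvPolynomial.C (strH q 1 a))
        rw [psiG_algebraMap, psi0_C, rhoG_strH, hlift, thetaG_C]
      · intro j
        change IsLocalization.Away.lift (phi q) (isUnit_thetaG q)
          (psiG q (algebraMap (LinR q) (GmR q) (MvPolynomial.C
            (Ideal.Quotient.mk _ (MvPolynomial.X j))))) =
          algebraMap (LinR q) (GmR q) (MvPolynomial.C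
            (Ideal.Quotient.mk _ (MvPolynomial.X j)))
        rw [psiG_algebraMap, psi0_C, rhoG_X, map_mul, hlift, thetaG_X, map_mul, mul_assoc, hinv,
          mul_one]
    exact RingHom.congr_fun h1 x
  · intro j
    fin_cases j
    change IsLocalization.Away.lift (phi q) (isUnit_thetaG q)
          (psiG q (algebraMap (LinR q) (GmR q) (MvPolynomial.X 0))) =
          algebraMap (LinR q) (GmR q) (MvPolynomial.X 0)
    rw [psiG_algebraMap, psi0_X, hlift, thetaG_phi]

/-- The complement of the hypersurface `∑ tᵢ qᵢ = 0`. -/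
theorem thetaG_spec : IsOpenImmersion (Spec.map (CommRingCat.ofHom (thetaG q))) ∧
    Set.range (Spec.map (CommRingCat.ofHom (thetaG q))) =
      (basicOpen (phi q) : Set (PrimeSpectrum (MvPolynomial (Fin (r + 1)) A))) :=
  isOpenImmersion_of_inverse (thetaG q) (phi q) (isUnit_thetaG q) (psiG q)
    (psiG_comp q) (lift_comp_psiG q)

end Pool.Agent.Y138.UC
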