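import Pool.Agent.Y138.UC.Geo

/-!
# The hypersurfaces `∑ tᵢ qᵢ = c`
-/

set_option autoImplicit false

open CategoryTheory AlgebraicGeometry PrimeSpectrum

universe u v

namespace Pool.Agent.Y138.UC

variable {A : Type u} [CommRing A] {r : ℕ} (q : Fin (r + 1) → A) (c : A)

/-- The linear form `∑ qᵢ tᵢ`. -/
noncomputable def phi : MvPolynomial (Fin (r + 1)) A := ∑ i, MvPolynomial.C (q i) * MvPolynomial.X i

/-- The coordinate ring of the hypersurface `∑ qᵢ tᵢ = c`. -/
abbrev Hyp : Type u := MvPolynomial (Fin (r + 1)) A ⧸ Ideal.span {phi q - MvPolynomial.C c}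

/-- The structure map. -/
noncomputable def strH : A →+* Hyp q c := (Ideal.Quotient.mk _).comp MvPolynomial.C

theorem hyp_rel (i : Fin (r + 1)) : strH q c (q i) * Ideal.Quotient.mk _ (MvPolynomial.X i) =
    strH q c c - ∑ j : Fin r, strH q c (q (i.succAbove j)) *
      Ideal.Quotient.mk _ (MvPolynomial.X (i.succAbove j)) := by
  have h1 : (Ideal.Quotient.mk (Ideal.span {phi q - MvPolynomial.C c}))
      (phi q - MvPolynomial.C c) = 0 :=
    Ideal.Quotient.eq_zero_iff_mem.2 (Ideal.subset_span rfl)
  have h2 : phi q = MvPolynomial.C (q i) * MvPolynomial.X i +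
      ∑ j : Fin r, MvPolynomial.C (q (i.succAbove j)) * MvPolynomial.X (i.succAbove j) := by
    rw [phi, Fin.sum_univ_succAbove _ i]
  have h3 := congrArg (Ideal.Quotient.mk (Ideal.span {phi q - MvPolynomial.C c})) h2
  rw [map_sub, sub_eq_zero] at h1
  rw [h1, map_add, map_mul, map_sum] at h3
  rw [eq_sub_iff_add_eq]
  simp only [map_mul] at h3
  exact h3.symm

variable (i : Fin (r + 1))

/-- The image of the variables in the polynomial ring over the localization. -/
noncomputable def valH : Fin (r + 1) → MvPolynomial (Fin r) (Localization.Away (q i)) :=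
  i.insertNth (α := fun _ => MvPolynomial (Fin r) (Localization.Away (q i)))
    (MvPolynomial.C (IsLocalization.Away.invSelf (q i)) *
      (MvPolynomial.C (algebraMap A _ c) -
        ∑ j : Fin r, MvPolynomial.C (algebraMap A _ (q (i.succAbove j))) * MvPolynomial.X j))
    MvPolynomial.X

theorem valH_self : MvPolynomial.C (algebraMap A (Localization.Away (q i)) (q i)) *
    valH q c i i = MvPolynomial.C (algebraMap A _ c) -
        ∑ j : Fin r, MvPolynomial.C (algebraMap A _ (q (i.succAbove j))) * MvPolynomial.X j := by
  rw [valH, Fin.insertNth_apply_same, ← mul_assoc, ← map_mul,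
    IsLocalization.Away.mul_invSelf, map_one, one_mul]

theorem valH_succAbove (j : Fin r) : valH q c i (i.succAbove j) = MvPolynomial.X j := by
  rw [valH, Fin.insertNth_apply_succAbove]

/-- The trivialisation over `D(qᵢ)`. -/
noncomputable def thetaH : Hyp q c →+* MvPolynomial (Fin r) (Localization.Away (q i)) :=
  Ideal.Quotient.lift _ (MvPolynomial.eval₂Hom (MvPolynomial.C.comp (algebraMap A _))
    (valH q c i)) (by
    intro x hx
    refine Submodule.span_induction ?_ ?_ ?_ ?_ hx
    · rintro _ rfl
      rw [map_sub, phi, map_sum, Fin.sum_univ_succAbove _ i, sub_eq_zero]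
      simp only [map_mul, MvPolynomial.eval₂Hom_C, MvPolynomial.eval₂Hom_X', RingHom.comp_apply,
        valH_succAbove]
      rw [valH_self, sub_add_cancel]
    · exact map_zero _
    · intro x y _ _ hx hy
      rw [map_add, hx, hy, add_zero]
    · intro a x _ hx
      rw [smul_eq_mul, map_mul, hx, mul_zero])

theorem thetaH_comp : (thetaH q c i).comp (strH q c) =
    MvPolynomial.C.comp (algebraMap A (Localization.Away (q i))) := by
  ext x : 1
  change thetaH q c i (Ideal.Quotient.mk _ (MvPolynomial.C x)) = _
  rw [thetaH, Ideal.Quotient.lift_mk, MvPolynomial.eval₂Hom_C]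

theorem thetaH_X (j : Fin (r + 1)) :
    thetaH q c i (Ideal.Quotient.mk _ (MvPolynomial.X j)) = valH q c i j := by
  rw [thetaH, Ideal.Quotient.lift_mk, MvPolynomial.eval₂Hom_X']

theorem thetaH_strH (x : A) : thetaH q c i (strH q c x) =
    MvPolynomial.C (algebraMap A (Localization.Away (q i)) x) :=
  RingHom.congr_fun (thetaH_comp q c i) x

theorem isUnit_thetaH : IsUnit (thetaH q c i (strH q c (q i))) := by
  rw [thetaH_strH]
  exact (IsLocalization.Away.algebraMap_isUnit (q i)).map MvPolynomial.C

theorem isUnit_loc : IsUnit (((algebraMap (Hyp q c) (Localization.Away (strH q c (q i)))).comp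
    (strH q c)) (q i)) :=
  IsLocalization.Away.algebraMap_isUnit (strH q c (q i))

/-- The inverse of the trivialisation. -/
noncomputable def psiH : MvPolynomial (Fin r) (Localization.Away (q i)) →+*
    Localization.Away (strH q c (q i)) :=
  MvPolynomial.eval₂Hom (IsLocalization.Away.lift (q i) (isUnit_loc q c i))
    (fun j => algebraMap (Hyp q c) _ (Ideal.Quotient.mk _ (MvPolynomial.X (i.succAbove j))))

theorem psiH_C (x : A) : psiH q c i (MvPolynomial.C (algebraMap A (Localization.Away (q i)) x)) =
    algebraMap (Hyp q c) _ (strH q c x) := by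
  rw [psiH, MvPolynomial.eval₂Hom_C, IsLocalization.Away.lift_eq]
  rfl

theorem psiH_X (j : Fin r) : psiH q c i (MvPolynomial.X j) =
    algebraMap (Hyp q c) _ (Ideal.Quotient.mk _ (MvPolynomial.X (i.succAbove j))) := by
  rw [psiH, MvPolynomial.eval₂Hom_X']

theorem psiH_comp : (psiH q c i).comp (thetaH q c i) =
    algebraMap (Hyp q c) (Localization.Away (strH q c (q i))) := by
  refine Ideal.Quotient.ringHom_ext (MvPolynomial.ringHom_ext ?_ ?_)
  · intro x
    change psiH q c i (thetaH q c i (strH q c x)) = algebraMap _ _ (strH q c x)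
    rw [thetaH_strH, psiH_C]
  · intro j
    change psiH q c i (thetaH q c i (Ideal.Quotient.mk _ (MvPolynomial.X j))) =
      algebraMap (Hyp q c) (Localization.Away (strH q c (q i)))
        (Ideal.Quotient.mk _ (MvPolynomial.X j : MvPolynomial (Fin (r + 1)) A))
    rw [thetaH_X]
    rcases Fin.eq_self_or_eq_succAbove i j with rfl | ⟨j', rfl⟩
    · have hu := isUnit_loc q c j
      refine hu.mul_left_cancel ?_
      have h1 := congrArg (psiH q c j) (valH_self q c j)
      rw [map_mul, psiH_C, map_sub, psiH_C, map_sum] at h1
      simp only [map_mul, psiH_C, psiH_X] at h1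
      change algebraMap (Hyp q c) (Localization.Away (strH q c (q j))) (strH q c (q j)) * _ =
        algebraMap (Hyp q c) (Localization.Away (strH q c (q j))) (strH q c (q j)) * _
      rw [h1, ← map_mul, hyp_rel, map_sub, map_sum]
      simp only [map_mul]
    · rw [valH_succAbove, psiH_X]

theorem lift_comp_psiH : (IsLocalization.Away.lift (strH q c (q i))
    (isUnit_thetaH q c i)).comp (psiH q c i) =
      RingHom.id (MvPolynomial (Fin r) (Localization.Away (q i))) := by
  refine MvPolynomial.ringHom_ext ?_ ?_
  · intro s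
    have h1 : ((IsLocalization.Away.lift (strH q c (q i))
        (isUnit_thetaH q c i)).comp (psiH q c i)).comp
          (MvPolynomial.C : Localization.Away (q i) →+*
            MvPolynomial (Fin r) (Localization.Away (q i))) =
        (MvPolynomial.C : Localization.Away (q i) →+*
            MvPolynomial (Fin r) (Localization.Away (q i))) := by
      refine IsLocalization.ringHom_ext (Submonoid.powers (q i)) ?_
      ext x : 1
      change IsLocalization.Away.lift (strH q c (q i)) (isUnit_thetaH q c i)
        (psiH q c i (MvPolynomial.C (algebraMap A (Localization.Away (q i)) x))) =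
          MvPolynomial.C (algebraMap A _ x)
      rw [psiH_C, IsLocalization.Away.lift_eq, thetaH_strH]
    exact RingHom.congr_fun h1 s
  · intro j
    change IsLocalization.Away.lift (strH q c (q i)) (isUnit_thetaH q c i)
        (psiH q c i (MvPolynomial.X j)) = MvPolynomial.X j
    rw [psiH_X, IsLocalization.Away.lift_eq, thetaH_X, valH_succAbove]

/-- The hypersurface is locally trivial. -/
theorem thetaH_spec : IsOpenImmersion (Spec.map (CommRingCat.ofHom (thetaH q c i))) ∧
    Set.range (Spec.map (CommRingCat.ofHom (thetaH q c i))) =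
      (basicOpen (strH q c (q i)) : Set (PrimeSpectrum (Hyp q c))) :=
  isOpenImmersion_of_inverse (thetaH q c i) (strH q c (q i)) (isUnit_thetaH q c i) (psiH q c i)
    (psiH_comp q c i) (lift_comp_psiH q c i)

end Pool.Agent.Y138.UC
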