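import Pool.Agent.Y138.UC.Final

/-!
# Noetherian induction and the converse
-/

set_option autoImplicit false

open CategoryTheory AlgebraicGeometry

universe u v

namespace Pool.Agent.Y138.UC

variable {k : Type u} [Field k] {F : Type v} [Field F] {T : CycleTheory.{u, v} k F}

/-- The algebraicity on a scheme from a closed subscheme and its complement. -/
theorem CycleTheory.IsStrict.algebraic_of_complement (hT : T.IsValid) (hs : T.IsStrict)
    {Z X U : Over (Spec (.of k))} {i : Z ⟶ X} {j : U ⟶ X} (hX : IsVariety X)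
    (h : IsComplement i j) {n : ℤ} (hZ : T.Algebraic Z n) (hU : T.Algebraic U n) :
    T.Algebraic X n := by
  intro x hx
  obtain ⟨ξ, hξ⟩ := hU ((hT.res j h.2.1 n).2 x hx)
  obtain ⟨η, rfl⟩ := (hT.chow.exact hX h n).2 ξ
  rw [(hT.res j h.2.1 n).1] at hξ
  have h1 : x - T.cl X n η ∈ T.special X n := sub_mem hx (hs.cl hX n η)
  have h2 : (T.H 0).res j h.2.1 n (x - T.cl X n η) = 0 := by
    rw [map_sub, hξ, sub_self]
  obtain ⟨z, hz, hzx⟩ := hs.push hX h n _ h1 h2
  obtain ⟨ζ, rfl⟩ := hZ hz
  rw [← (hT.push i h.1 n).1] at hzx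
  exact ⟨T.C.push i h.1 n ζ + η, by rw [map_add, hzx, sub_add_cancel]⟩

/-- A variety is a Noetherian space. -/
theorem noetherianSpace {X : Over (Spec (.of k))} (hX : IsVariety X) :
    TopologicalSpace.NoetherianSpace X.left := by
  obtain ⟨h1, h2, h3⟩ := hX
  have h4 : IsLocallyNoetherian X.left := LocallyOfFiniteType.isLocallyNoetherian X.hom
  have h5 : CompactSpace X.left := by
    have := QuasiCompact.compactSpace_of_compactSpace X.hom
    exact this
  have h6 : IsNoetherian X.left := {}
  infer_instance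

/-- The Noetherian induction. -/
theorem CycleTheory.IsStrict.algebraic_of_affine (hT : T.IsValid) (hs : T.IsStrict)
    (h : ∀ (E : Over (Spec (.of k))), IsAffine E.left → IsVariety E → ∀ a, T.Algebraic E a)
    (X : Over (Spec (.of k))) (hX : IsVariety X) (a : ℤ) : T.Algebraic X a := by
  have hn := noetherianSpace hX
  have key : ∀ (C : TopologicalSpace.Closeds X.left) (Z : Over (Spec (.of k))) (i : Z ⟶ X),
      IsClosedImmersion i.left → Set.range i.left = (C : Set X.left) → T.Algebraic Z a := by
    intro C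
    induction C using WellFoundedLT.induction with
    | ind C ih =>
      intro Z i hi hr
      have hZ : IsVariety Z := isVariety_closed hX i hi
      rcases isEmpty_or_nonempty Z.left with hemp | ⟨⟨z⟩⟩
      · exact h Z inferInstance hZ a
      · obtain ⟨W, hW, hzW, -⟩ := exists_isAffineOpen_mem_and_subset
          (U := (⊤ : Z.left.Opens)) (x := z) trivial
        have hWa : IsAffine (opn Z W).left := hW
        set C' : TopologicalSpace.Closeds Z.left := ⟨(W : Set Z.left)ᶜ, W.2.isClosed_compl⟩ with hC'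
        set I := Scheme.IdealSheafData.vanishingIdeal C' with hI
        set Z' : Over (Spec (.of k)) := Over.mk (I.subschemeι ≫ Z.hom) with hZ'
        set i' : Z' ⟶ Z := Over.homMk I.subschemeι with hi'
        have hi'c : IsClosedImmersion i'.left := by
          change IsClosedImmersion I.subschemeι
          infer_instance
        have hr' : Set.range i'.left = (W : Set Z.left)ᶜ := by
          change Set.range I.subschemeι = _
          rw [Scheme.IdealSheafData.range_subschemeι, hI]
          simp [hC']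
        have hc : IsComplement i' (opnι Z W) := by
          refine ⟨hi'c, ?_, ?_⟩
          · change IsOpenImmersion W.ι
            infer_instance
          · rw [hr']
            change _ = (Set.range W.ι)ᶜ
            congr 1
            simp
        refine hs.algebraic_of_complement hT hZ hc ?_ (h _ hWa (isVariety_opn hZ W) a)
        have hcc : IsClosedImmersion (i' ≫ i).left := by
          change IsClosedImmersion (i'.left ≫ i.left)
          infer_instance
        have hinj : Function.Injective i.left := i.left.isClosedEmbedding.injective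
        refine ih ⟨Set.range (i' ≫ i).left, (i' ≫ i).left.isClosedEmbedding.isClosed_range⟩ ?_ Z' (i' ≫ i) hcc rfl
        refine lt_of_le_of_ne ?_ ?_
        · rintro _ ⟨y, rfl⟩
          change (i' ≫ i).left y ∈ (C : Set X.left)
          rw [← hr]
          exact ⟨i'.left y, rfl⟩
        · intro heq
          have h1 : i.left z ∈ (C : Set X.left) := by rw [← hr]; exact ⟨z, rfl⟩
          rw [← heq] at h1
          obtain ⟨y, hy⟩ := h1
          have h2 : i'.left y = z := hinj hy
          have h3 : z ∈ (W : Set Z.left)ᶜ := by rw [← hr', ← h2]; exact ⟨y, rfl⟩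
          exact h3 hzW
  have hid : IsClosedImmersion (𝟙 X : X ⟶ X).left := by
    change IsClosedImmersion (𝟙 X.left)
    infer_instance
  refine key ⊤ X (𝟙 X) hid ?_
  ext x
  exact ⟨fun _ => trivial, fun _ => ⟨x, rfl⟩⟩

/-- The classes on affine space. -/
theorem CycleTheory.IsStrict.cl_space (hT : T.IsValid) (hs : T.IsStrict) (N : ℕ) (a : ℤ)
    (y : (T.H 0).M (aff k (MvPolynomial (Fin N) k)) a) : ∃ z, T.cl _ a z = y := by
  by_cases ha : a = N
  · have h1 : a = 0 + (N : ℤ) := by omega
    clear ha
    subst h1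
    obtain ⟨w, rfl⟩ := (hT.homology.pull (isAffineBundle_triv (k := k) k N) (isVariety_aff k) 0
      0).2 y
    obtain ⟨z, rfl⟩ := hs.point w
    exact ⟨T.C.pull _ _ (isAffineBundle_triv (k := k) k N) 0 z, (hT.pull _ _ _ _).1 z⟩
  · have h5 := hT.affine_space N 0 a (by omega)
    exact ⟨0, Subsingleton.elim _ _⟩

/-- The converse, in terms of the schemes involved. -/
theorem CycleTheory.IsStrict.converse (hT : T.IsValid) (hs : T.IsStrict)
    {X S U H₀ Z E : Over (Spec (.of k))} {jU : U ⟶ S} (oU : IsOpenImmersion jU.left)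
    {iZ : Z ⟶ H₀} {jE : E ⟶ H₀} (c4 : IsComplement iZ jE)
    {r : ℕ} {pE : E ⟶ U} (bE : IsAffineBundle r pE.left)
    {pZ : Z ⟶ X} (bZ : IsAffineBundle (r + 1) pZ.left)
    (vX : IsVariety X) (vS : IsVariety S) (vU : IsVariety U) (vH₀ : IsVariety H₀)
    {a n : ℤ} (hn : n = a + (r + 1 : ℕ))
    (hS : ∀ y : (T.H 0).M S (a + 1), ∃ z, T.cl S (a + 1) z = y)
    (h : T.Algebraic X a) : T.Algebraic H₀ n := by
  have hE : T.Algebraic E n := by
    have h3 : ∀ (m : ℤ), m = a + 1 + (r : ℕ) → ∀ y ∈ T.special E m, ∃ z, T.cl E m z = y := by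
      rintro _ rfl y hy
      obtain ⟨z, rfl⟩ := (hT.homology.pull bE vU 0 (a + 1)).2 y
      obtain ⟨w, rfl⟩ := hs.res jU oU vS _ _ (hs.pull _ _ bE vU _ _ hy)
      obtain ⟨η, rfl⟩ := hS w
      exact ⟨T.C.pull pE r bE _ (T.C.res jU oU _ η), by
        rw [(hT.pull _ _ bE _).1, (hT.res _ oU _).1]⟩
    intro y hy
    exact h3 n (by rw [hn]; push_cast; ring) y hy
  have hZ : T.Algebraic Z n := by
    subst hn
    intro z hz
    obtain ⟨w, rfl⟩ := (hT.homology.pull bZ vX 0 a).2 z
    obtain ⟨η, rfl⟩ := h (hs.pull _ _ bZ vX _ _ hz)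
    exact ⟨T.C.pull pZ (r + 1) bZ a η, (hT.pull pZ (r + 1) bZ a).1 η⟩
  exact hs.algebraic_of_complement hT vH₀ c4 hZ hE

/-- The converse for strict theories: algebraicity on the zeros of the `qᵢ` implies algebraicity
on the hypersurface. -/
theorem CycleTheory.IsStrict.hyp_of_zeros (hT : T.IsValid) (hs : T.IsStrict) {N r : ℕ}
    (q : Fin (r + 1) → MvPolynomial (Fin N) k) (a : ℤ)
    (h : T.Algebraic (zeros k q) a) : T.Algebraic (hyp q) (a + (r + 1)) := by
  have vS : IsVariety (aff k (MvPolynomial (Fin N) k)) := isVariety_aff _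
  refine hT.algebraic_of_iso (hypIso q).symm (isVariety_hyp q) ?_
  exact hs.converse hT (compl_X (k := k) q).2.1 (compl_Z q) (isAffineBundle_bunE q)
    (isAffineBundle_triv _ (r + 1)) (finiteType_zeros q) vS (isVariety_opn vS _)
    (isVariety_aff _) (by push_cast; ring) (hs.cl_space hT N (a + 1)) h

/-- The equivalence for weighted theories. -/
theorem CycleTheory.IsWeighted.hyp_iff_zeros (hT : T.IsValid) (hw : T.IsWeighted) {N r : ℕ}
    (q : Fin (r + 1) → MvPolynomial (Fin N) k) (a : ℤ) (ha : a ≠ N) (ha' : a + 1 ≠ N) :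
    T.Algebraic (hyp q) (a + (r + 1)) ↔ T.Algebraic (zeros k q) a := by
  refine ⟨hT.zeros_of_hyp q a ha ha', fun h => ?_⟩
  refine hT.algebraic_of_iso (hypIso q).symm (isVariety_hyp q) ?_
  have h1 := hw.space_case hT q a ha ha' h
  push_cast at h1
  exact h1

/-- The reduction for all varieties, strict theories. -/
theorem CycleTheory.IsStrict.all_of_cubic (hT : T.IsValid) (hs : T.IsStrict)
    (h : ∀ (N r : ℕ) (q : Fin (r + 1) → MvPolynomial (Fin N) k),
      (∀ i, (q i).totalDegree ≤ 2) → ∀ n, T.Algebraic (hyp q) n)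
    (X : Over (Spec (.of k))) (hX : IsVariety X) (a : ℤ) : T.Algebraic X a :=
  hs.algebraic_of_affine hT (fun E _ hE a => hT.affine_of_cubic h E hE a) X hX a

/-- The reduction for varieties with an affine bundle whose total space is affine. -/
theorem CycleTheory.IsValid.bundle_of_cubic (hT : T.IsValid)
    (h : ∀ (N r : ℕ) (q : Fin (r + 1) → MvPolynomial (Fin N) k),
      (∀ i, (q i).totalDegree ≤ 2) → ∀ n, T.Algebraic (hyp q) n)
    {E X : Over (Spec (.of k))} (f : E ⟶ X) (m : ℕ) (hf : IsAffineBundle m f.left)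
    [IsAffine E.left] (hE : IsVariety E) (hX : IsVariety X) (a : ℤ) : T.Algebraic X a :=
  hT.algebraic_of_bundle f hf hX (hT.affine_of_cubic h E hE _)

end Pool.Agent.Y138.UC
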