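import Pool.Agent.Y138.UC.Th

/-!
# The complement pairs and the bundles
-/

set_option autoImplicit false

open CategoryTheory AlgebraicGeometry PrimeSpectrum

universe u v

namespace Pool.Agent.Y138.UC

variable {k : Type u} [Field k]

section General

variable {A B C : Type u} [CommRing A] [CommRing B] [CommRing C] [Algebra k A] [Algebra k B]
  [Algebra k C]

theorem mem_range_closed (f : A →+* B) (hf : Function.Surjective f) (x : PrimeSpectrum A) :
    x ∈ Set.range (Spec.map (CommRingCat.ofHom f)) ↔ (RingHom.ker f : Set A) ⊆ x.asIdeal := by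
  have h := range_comap_of_surjective _ f hf
  exact (Set.ext_iff.1 h x).trans Iff.rfl

/-- A complement pair of affine schemes. -/
theorem isComplement_aff (f : A →+* B) (hf : f.comp (algebraMap k A) = algebraMap k B)
    (g : A →+* C) (hg : g.comp (algebraMap k A) = algebraMap k C) (hs : Function.Surjective f)
    (φ : A) (hk : RingHom.ker f = Ideal.span {φ})
    (ho : IsOpenImmersion (Spec.map (CommRingCat.ofHom g)))
    (hr : Set.range (Spec.map (CommRingCat.ofHom g)) = (basicOpen φ : Set (PrimeSpectrum A))) :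
    IsComplement (affMap f hf) (affMap g hg) := by
  have key : ∀ x : PrimeSpectrum A, (RingHom.ker f : Set A) ⊆ x.asIdeal ↔
      ¬ (x ∈ basicOpen φ) := by
    intro x
    rw [hk, SetLike.coe_subset_coe, Ideal.span_le, Set.singleton_subset_iff]
    exact not_not.symm
  refine ⟨IsClosedImmersion.spec_of_surjective _ hs, ho, ?_⟩
  refine Set.ext fun x => (mem_range_closed f hs x).trans ((key x).trans (not_congr ?_))
  exact (Set.ext_iff.1 hr x).symm

/-- A complement pair with affine ambient scheme. -/
theorem isComplement_opn (f : A →+* B) (hf : f.comp (algebraMap k A) = algebraMap k B)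
    (hs : Function.Surjective f) (U : (Spec (.of A)).Opens)
    (hU : ∀ x : PrimeSpectrum A, x ∈ U ↔ ¬ (RingHom.ker f : Set A) ⊆ x.asIdeal) :
    IsComplement (affMap f hf) (opnι (aff k A) U) := by
  refine ⟨IsClosedImmersion.spec_of_surjective _ hs, ?_, ?_⟩
  · change IsOpenImmersion (U.ι)
    infer_instance
  · have h : ∀ x : Spec (.of A), x ∈ Set.range U.ι ↔ x ∈ U := by
      intro x
      simp
    refine Set.ext fun x => (mem_range_closed f hs x).trans ?_
    exact (not_not.symm.trans (not_congr (hU x).symm)).trans (not_congr (h x).symm)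

theorem affMap_section (f : A →+* B) (hf : f.comp (algebraMap k A) = algebraMap k B)
    (g : B →+* C) (hg : g.comp (algebraMap k B) = algebraMap k C)
    (h : C →+* A) (hh : h.comp (algebraMap k C) = algebraMap k A)
    (e : h.comp (g.comp f) = RingHom.id A) :
    affMap h hh ≫ affMap g hg ≫ affMap f hf = 𝟙 (aff k A) := by
  refine Over.OverMorphism.ext ?_
  change Spec.map (CommRingCat.ofHom h) ≫ Spec.map (CommRingCat.ofHom g) ≫
    Spec.map (CommRingCat.ofHom f) = 𝟙 _
  rw [← Spec.map_comp, ← Spec.map_comp, ← CommRingCat.ofHom_comp, ← CommRingCat.ofHom_comp, e]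
  exact Spec.map_id _

end General

variable {A : Type u} [CommRing A] [Algebra k A] {r : ℕ} (q : Fin (r + 1) → A)

/-- The open complement of the common zeros of the `qᵢ`. -/
noncomputable def opU : (Spec (.of A)).Opens := ⨆ i, basicOpen (q i)

theorem mem_opU (x : PrimeSpectrum A) : x ∈ opU q ↔ ∃ i, x ∈ basicOpen (q i) := by
  rw [opU]
  exact TopologicalSpace.Opens.mem_iSup

theorem mem_opU_iff (x : PrimeSpectrum A) : x ∈ opU q ↔
    ¬ (Ideal.span (Set.range q) : Set A) ⊆ x.asIdeal := by
  rw [mem_opU, SetLike.coe_subset_coe, Ideal.span_le, Set.range_subset_iff, not_forall]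
  rfl

/-- The closed subscheme defined by the `qᵢ` and its complement. -/
theorem compl_X : IsComplement (k := k)
    (affMap (Ideal.Quotient.mk (Ideal.span (Set.range q))) rfl) (opnι (aff k A) (opU q)) := by
  refine isComplement_opn _ _ Ideal.Quotient.mk_surjective _ ?_
  intro x
  rw [mem_opU_iff, Ideal.mk_ker]

theorem ker_hyp : RingHom.ker (Ideal.Quotient.mk (Ideal.span {phi q - MvPolynomial.C 0})) =
    Ideal.span {phi q} := by
  rw [Ideal.mk_ker, MvPolynomial.C_0, sub_zero]

theorem thetaG_alg : (thetaG q).comp (algebraMap k (MvPolynomial (Fin (r + 1)) A)) =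
    algebraMap k (GmR q) := by
  refine RingHom.ext fun x => ?_
  change thetaG q (MvPolynomial.C (algebraMap k A x)) = _
  rw [thetaG_C]
  rw [IsScalarTower.algebraMap_apply k (LinR q) (GmR q)]
  rfl

/-- The hypersurface `∑ tᵢ qᵢ = 0` and its complement. -/
theorem compl_H0 : IsComplement (k := k)
    (affMap (Ideal.Quotient.mk (Ideal.span {phi q - MvPolynomial.C 0})) rfl :
      aff k (Hyp q 0) ⟶ aff k (MvPolynomial (Fin (r + 1)) A))
    (affMap (thetaG q) (thetaG_alg q) : aff k (GmR q) ⟶ aff k (MvPolynomial (Fin (r + 1)) A)) :=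
  isComplement_aff _ _ _ _ Ideal.Quotient.mk_surjective (phi q) (ker_hyp q)
    (thetaG_spec q).1 (thetaG_spec q).2

/-! ### The line over the hypersurface `∑ tᵢ qᵢ = 1` -/

theorem ker_eval_zero (R : Type u) [CommRing R] :
    RingHom.ker (MvPolynomial.eval (fun _ : Fin 1 => (0 : R))) =
      Ideal.span {(MvPolynomial.X 0 : MvPolynomial (Fin 1) R)} := by
  have h1 : ∀ p : MvPolynomial (Fin 1) R, p - MvPolynomial.C
      (MvPolynomial.eval (fun _ : Fin 1 => (0 : R)) p) ∈
      Ideal.span {(MvPolynomial.X 0 : MvPolynomial (Fin 1) R)} := by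
    intro p
    induction p using MvPolynomial.induction_on with
    | C a => simp
    | add p q hp hq =>
      rw [map_add, map_add, add_sub_add_comm]
      exact add_mem hp hq
    | mul_X p i hp =>
      rw [map_mul, MvPolynomial.eval_X, mul_zero, map_zero, sub_zero]
      have : i = 0 := Subsingleton.elim _ _
      rw [this]
      exact Ideal.mul_mem_left _ _ (Ideal.subset_span rfl)
  apply le_antisymm
  · intro p hp
    have h2 := h1 p
    rw [RingHom.mem_ker] at hp
    rw [hp, map_zero, sub_zero] at h2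
    exact h2
  · rw [Ideal.span_le, Set.singleton_subset_iff]
    change MvPolynomial.eval (fun _ : Fin 1 => (0 : R)) (MvPolynomial.X 0) = 0
    rw [MvPolynomial.eval_X]

theorem eval_alg (R : Type u) [CommRing R] [Algebra k R] (c : R) :
    (MvPolynomial.eval (fun _ : Fin 1 => c)).comp (algebraMap k (MvPolynomial (Fin 1) R)) =
      algebraMap k R := by
  refine RingHom.ext fun x => ?_
  change MvPolynomial.eval (fun _ : Fin 1 => c) (MvPolynomial.C (algebraMap k R x)) = _
  rw [MvPolynomial.eval_C]

theorem alg_GmR : (algebraMap (LinR q) (GmR q)).comp (algebraMap k (LinR q)) =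
    algebraMap k (GmR q) := by
  refine RingHom.ext fun x => ?_
  exact (IsScalarTower.algebraMap_apply k (LinR q) (GmR q) x).symm

/-- The hypersurface `∑ tᵢ qᵢ = 1` in its product with the line. -/
theorem compl_L : IsComplement (k := k)
    (affMap (MvPolynomial.eval (fun _ : Fin 1 => (0 : Hyp q 1))) (eval_alg _ _) :
      aff k (Hyp q 1) ⟶ aff k (LinR q))
    (affMap (algebraMap (LinR q) (GmR q)) (alg_GmR q) : aff k (GmR q) ⟶ aff k (LinR q)) := by
  refine isComplement_aff _ _ _ _ ?_ (MvPolynomial.X 0) (ker_eval_zero _) ?_ ?_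
  · intro x
    exact ⟨MvPolynomial.C x, MvPolynomial.eval_C _⟩
  · infer_instance
  · exact PrimeSpectrum.localization_away_comap_range (GmR q) (MvPolynomial.X 0 : LinR q)

/-- The section at `1`. -/
noncomputable def secG : GmR q →+* Hyp q 1 :=
  IsLocalization.Away.lift (MvPolynomial.X 0 : LinR q)
    (g := MvPolynomial.eval (fun _ : Fin 1 => (1 : Hyp q 1)))
    (by rw [MvPolynomial.eval_X]; exact isUnit_one)

theorem secG_comp : (secG q).comp (algebraMap (LinR q) (GmR q)) =
    MvPolynomial.eval (fun _ : Fin 1 => (1 : Hyp q 1)) :=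
  IsLocalization.Away.lift_comp _ _

theorem secG_alg : (secG q).comp (algebraMap k (GmR q)) = algebraMap k (Hyp q 1) := by
  rw [← alg_GmR, ← RingHom.comp_assoc, secG_comp, eval_alg]

theorem secG_section : (affMap (secG q) (secG_alg q) : aff k (Hyp q 1) ⟶ aff k (GmR q)) ≫
    (affMap (algebraMap (LinR q) (GmR q)) (alg_GmR q) : aff k (GmR q) ⟶ aff k (LinR q)) ≫
    triv (Hyp q 1) 1 = 𝟙 (aff k (Hyp q 1)) := by
  refine affMap_section _ _ _ _ _ _ ?_
  rw [← RingHom.comp_assoc, secG_comp]
  exact RingHom.ext fun x => MvPolynomial.eval_C _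

/-! ### The closed subscheme `X × 𝔸^{r+1}` of the hypersurface `∑ tᵢ qᵢ = 0` -/

theorem mk_q (i : Fin (r + 1)) : Ideal.Quotient.mk (Ideal.span (Set.range q)) (q i) = 0 :=
  Ideal.Quotient.eq_zero_iff_mem.2 (Ideal.subset_span (Set.mem_range_self i))

/-- The restriction to `X × 𝔸^{r+1}`. -/
noncomputable def resZ : Hyp q 0 →+*
    MvPolynomial (Fin (r + 1)) (A ⧸ Ideal.span (Set.range q)) :=
  Ideal.Quotient.lift _ (MvPolynomial.map (Ideal.Quotient.mk (Ideal.span (Set.range q)))) (by
    intro x hx
    rw [MvPolynomial.C_0, sub_zero] at hx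
    refine Submodule.span_induction ?_ ?_ ?_ ?_ hx
    · rintro _ rfl
      rw [phi, map_sum]
      refine Finset.sum_eq_zero fun i _ => ?_
      rw [map_mul, MvPolynomial.map_C, mk_q, map_zero, zero_mul]
    · exact map_zero _
    · intro x y _ _ hx hy
      rw [map_add, hx, hy, add_zero]
    · intro a x _ hx
      rw [smul_eq_mul, map_mul, hx, mul_zero])

theorem resZ_mk (p : MvPolynomial (Fin (r + 1)) A) : resZ q (Ideal.Quotient.mk _ p) =
    MvPolynomial.map (Ideal.Quotient.mk (Ideal.span (Set.range q))) p := by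
  rw [resZ, Ideal.Quotient.lift_mk]

theorem resZ_surjective : Function.Surjective (resZ q) := by
  intro y
  obtain ⟨p, rfl⟩ := MvPolynomial.map_surjective _
    (Ideal.Quotient.mk_surjective (I := Ideal.span (Set.range q))) y
  exact ⟨Ideal.Quotient.mk _ p, resZ_mk q p⟩

theorem resZ_alg : (resZ q).comp (algebraMap k (Hyp q 0)) =
    algebraMap k (MvPolynomial (Fin (r + 1)) (A ⧸ Ideal.span (Set.range q))) := by
  refine RingHom.ext fun x => ?_
  change resZ q (Ideal.Quotient.mk _ (MvPolynomial.C (algebraMap k A x))) = _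
  rw [resZ_mk, MvPolynomial.map_C]
  rfl

theorem resZ_ker : RingHom.ker (resZ q) = (Ideal.span (Set.range q)).map (strH q 0) := by
  apply le_antisymm
  · intro y hy
    obtain ⟨p, rfl⟩ := Ideal.Quotient.mk_surjective y
    rw [RingHom.mem_ker, resZ_mk, ← RingHom.mem_ker, MvPolynomial.ker_map, Ideal.mk_ker] at hy
    have h1 := Ideal.mem_map_of_mem
      (Ideal.Quotient.mk (Ideal.span {phi q - MvPolynomial.C 0})) hy
    rw [Ideal.map_map] at h1
    exact h1
  · rw [Ideal.map_le_iff_le_comap, Ideal.span_le]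
    rintro _ ⟨i, rfl⟩
    change resZ q (Ideal.Quotient.mk _ (MvPolynomial.C (q i))) = 0
    rw [resZ_mk, MvPolynomial.map_C, mk_q, map_zero]

/-- The open complement of `X × 𝔸^{r+1}`. -/
noncomputable def opE : (Spec (.of (Hyp q 0))).Opens :=
  Spec.map (CommRingCat.ofHom (strH q 0)) ⁻¹ᵁ opU q

theorem mem_opE (x : PrimeSpectrum (Hyp q 0)) : x ∈ opE q ↔
    ¬ (RingHom.ker (resZ q) : Set (Hyp q 0)) ⊆ x.asIdeal := by
  have h1 : x ∈ opE q ↔ PrimeSpectrum.comap (strH q 0) x ∈ opU q := Iff.rfl
  rw [h1, mem_opU_iff, resZ_ker, SetLike.coe_subset_coe, SetLike.coe_subset_coe,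
    Ideal.map_le_iff_le_comap]
  rfl

theorem compl_Z : IsComplement (k := k) (affMap (resZ q) (resZ_alg q))
    (opnι (aff k (Hyp q 0)) (opE q)) :=
  isComplement_opn _ _ (resZ_surjective q) _ (mem_opE q)

end Pool.Agent.Y138.UC
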