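import Pool.Agent.Y138.UC.Cat

/-!
# Consequences of the axioms
-/

set_option autoImplicit false

open CategoryTheory AlgebraicGeometry PrimeSpectrum

universe u v

namespace Pool.Agent.Y138.UC

variable {k : Type u} [Field k] {F : Type v} [Field F]

section LinAlg

variable {V₁ V₂ V₃ : Type v} [AddCommGroup V₁] [AddCommGroup V₂] [AddCommGroup V₃]
  [Module F V₁] [Module F V₂] [Module F V₃]

/-- Injectivity by counting dimensions. -/
theorem inj_of_finrank [Module.Finite F V₁] [Module.Finite F V₂] [Module.Finite F V₃]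
    (f : V₁ →ₗ[F] V₂) (g : V₂ →ₗ[F] V₃) (h : Function.Exact f g)
    (hd : Module.finrank F V₂ = Module.finrank F V₁ + Module.finrank F V₃) :
    Function.Injective f := by
  have h1 := g.finrank_range_add_finrank_ker
  have h2 := f.finrank_range_add_finrank_ker
  have h3 : LinearMap.ker g = LinearMap.range f := (LinearMap.exact_iff.1 h)
  rw [h3] at h1
  have h4 : Module.finrank F (LinearMap.range g) ≤ Module.finrank F V₃ :=
    Submodule.finrank_le _
  rw [← LinearMap.ker_eq_bot]
  apply Submodule.finrank_eq_zero.1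
  omega

/-- The dimension of the middle term of a short exact sequence. -/
theorem finrank_of_exact [Module.Finite F V₂] (f : V₁ →ₗ[F] V₂) (g : V₂ →ₗ[F] V₃)
    (h : Function.Exact f g) (hf : Function.Injective f) (hg : Function.Surjective g) :
    Module.finrank F V₂ = Module.finrank F V₁ + Module.finrank F V₃ := by
  have h1 := g.finrank_range_add_finrank_ker
  have h3 : LinearMap.ker g = LinearMap.range f := (LinearMap.exact_iff.1 h)
  rw [h3, LinearMap.finrank_range_of_inj hf, LinearMap.range_eq_top.2 hg, finrank_top] at h1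
  omega

end LinAlg

/-- The trivial bundle. -/
theorem isAffineBundle_aff (B : Type u) [CommRing B] [Algebra k B] (r : ℕ) :
    IsAffineBundle r (Spec.map (CommRingCat.ofHom
      (MvPolynomial.C : B →+* MvPolynomial (Fin r) B))) := by
  intro b
  refine ⟨B, inferInstance, 𝟙 _, 𝟙 _, inferInstance, ⟨b, rfl⟩, inferInstance, ?_, ?_⟩
  · ext x
    simp
  · rw [Category.id_comp, Category.comp_id]

/-- The structure map of the trivial bundle. -/
noncomputable def triv (B : Type u) [CommRing B] [Algebra k B] (r : ℕ) :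
    aff k (MvPolynomial (Fin r) B) ⟶ aff k B :=
  affMap (MvPolynomial.C : B →+* MvPolynomial (Fin r) B) rfl

theorem isAffineBundle_triv (B : Type u) [CommRing B] [Algebra k B] (r : ℕ) :
    IsAffineBundle r (triv (k := k) B r).left := isAffineBundle_aff (k := k) B r

/-- The polynomials in no variables. -/
theorem isIso_C (R : CommRingCat.{u}) :
    IsIso (Spec.map (CommRingCat.ofHom (MvPolynomial.C : R →+* MvPolynomial (Fin 0) R))) := by
  have h1 : IsIso (CommRingCat.ofHom (MvPolynomial.C : R →+* MvPolynomial (Fin 0) R)) := by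
    have h2 : (CommRingCat.ofHom (MvPolynomial.C : R →+* MvPolynomial (Fin 0) R)) =
        ((MvPolynomial.isEmptyRingEquiv R (Fin 0)).symm).toCommRingCatIso.hom := by
      refine CommRingCat.hom_ext (RingHom.ext fun x => ?_)
      rfl
    rw [h2]
    infer_instance
  infer_instance

/-- Every point has an affine neighbourhood. -/
theorem exists_affine (B : Scheme.{u}) (b : B) :
    ∃ R : CommRingCat.{u}, ∃ w : Spec R ⟶ B, IsOpenImmersion w ∧ b ∈ Set.range w := by
  obtain ⟨R, f, x, hx, h⟩ := B.exists_affine_mem_range_and_range_subset (x := b) (U := ⊤) trivial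
  exact ⟨R, f, x, hx⟩

/-- Isomorphisms are bundles of rank zero. -/
theorem isAffineBundle_of_isIso {E B : Scheme.{u}} (f : E ⟶ B) [IsIso f] :
    IsAffineBundle 0 f := by
  intro b
  obtain ⟨R, w, hw, hb⟩ := exists_affine B b
  have hgi := isIso_C R
  refine ⟨R, inferInstance, w,
    Spec.map (CommRingCat.ofHom (MvPolynomial.C : R →+* MvPolynomial (Fin 0) R)) ≫ w ≫ inv f,
    hw, hb, inferInstance, ?_, ?_⟩
  · ext x
    constructor
    · rintro ⟨z, rfl⟩
      refine ⟨Spec.map (CommRingCat.ofHom (MvPolynomial.C : R →+* MvPolynomial (Fin 0) R)) z, ?_⟩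
      change w _ = ((_ ≫ w ≫ inv f) ≫ f) z
      rw [Category.assoc, Category.assoc, IsIso.inv_hom_id, Category.comp_id]
      rfl
    · rintro ⟨z, hz⟩
      obtain ⟨z', rfl⟩ := (Spec.map (CommRingCat.ofHom
        (MvPolynomial.C : R →+* MvPolynomial (Fin 0) R))).surjective z
      refine ⟨z', ?_⟩
      refine (congrArg (inv f) hz).trans ?_
      change (f ≫ inv f) x = x
      rw [IsIso.hom_inv_id]
      rfl
  · rw [Category.assoc, Category.assoc, IsIso.inv_hom_id, Category.comp_id]

variable {T : CycleTheory.{u, v} k F}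

/-- Descent of algebraicity along bundles. -/
theorem CycleTheory.IsValid.algebraic_of_bundle (hT : T.IsValid) {E B : Over (Spec (.of k))}
    (f : E ⟶ B) {r : ℕ} (hf : IsAffineBundle r f.left) (hB : IsVariety B) {n : ℤ}
    (h : T.Algebraic E (n + r)) : T.Algebraic B n := by
  intro x hx
  obtain ⟨ξ, hξ⟩ := h ((hT.pull f r hf n).2 x hx)
  obtain ⟨η, rfl⟩ := hT.chow.pull hf hB n ξ
  rw [(hT.pull f r hf n).1] at hξ
  exact ⟨η, (hT.homology.pull hf hB 0 n).1 hξ⟩

/-- Transport along isomorphisms. -/
theorem CycleTheory.IsValid.algebraic_of_iso (hT : T.IsValid) {E B : Over (Spec (.of k))}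
    (f : E ≅ B) (hB : IsVariety B) {n : ℤ} (h : T.Algebraic E n) : T.Algebraic B n := by
  have h1 : IsIso f.hom.left := inferInstance
  refine hT.algebraic_of_bundle f.hom (r := 0) (isAffineBundle_of_isIso f.hom.left) hB ?_
  rw [Nat.cast_zero, add_zero]
  exact h

end Pool.Agent.Y138.UC
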