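import Pool.Agent.Y138.UC.Defs

/-!
# The axioms in the form in which they are used
-/

set_option autoImplicit false

open CategoryTheory AlgebraicGeometry

universe u v

namespace Pool.Agent.Y138.UC

variable {k : Type u} [Field k] {F : Type v} [Field F]

section Homology

variable {H : ℤ → Functor.{u, v} k F} (hH : IsHomology H) {Z X U E B : Sch k}

include hH

theorem IsHomology.finite (hX : IsVariety X) (m n : ℤ) : Module.Finite F ((H m).M X n) :=
  hH.isFinite m X hX n

theorem IsHomology.exact {i : Z ⟶ X} {j : U ⟶ X} (hX : IsVariety X) (h : IsComplement i j)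
    (m n : ℤ) : Function.Exact ((H m).push i h.1 n) ((H m).res j h.2.1 n) ∧
      ∃ δ : (H (m + 1)).M U n →ₗ[F] (H m).M Z n,
        Function.Exact ((H (m + 1)).res j h.2.1 n) δ ∧ Function.Exact δ ((H m).push i h.1 n) :=
  ⟨hH.isExact m Z X U i j hX h n, hH.boundary m Z X U i j hX h n⟩

theorem IsHomology.pull {f : E ⟶ B} {r : ℕ} (hf : IsAffineBundle r f.left) (hB : IsVariety B)
    (m n : ℤ) : Function.Bijective ((H m).pull f r hf n) :=
  ⟨hH.pull_inj m E B f r hf hB n, hH.pull_surj m E B f r hf hB n⟩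

theorem IsHomology.section_inj {f : E ⟶ B} {r : ℕ} (hf : IsAffineBundle r f.left) {j : U ⟶ E}
    (hj : IsOpenImmersion j.left) {s : B ⟶ U} (hs : s ≫ j ≫ f = 𝟙 B) (hB : IsVariety B)
    (m n : ℤ) : Function.Injective fun x => (H m).res j hj (n + r) ((H m).pull f r hf n x) :=
  hH.sectionInj m E B U f r hf j hj s hs hB n

theorem IsHomology.point (m n : ℤ) (h : m + 2 * n ≠ 0) : Subsingleton ((H m).M (aff k k) n) :=
  hH.pointVanishing m n h

end Homology

section Chow

variable {C : Functor.{u, v} k F} (hC : IsChow C) {Z X U E B : Sch k}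

include hC

theorem IsChow.exact {i : Z ⟶ X} {j : U ⟶ X} (hX : IsVariety X) (h : IsComplement i j)
    (n : ℤ) : Function.Exact (C.push i h.1 n) (C.res j h.2.1 n) ∧
      Function.Surjective (C.res j h.2.1 n) :=
  ⟨hC.isExact Z X U i j hX h n, hC.isRightExact Z X U i j hX h n⟩

theorem IsChow.pull {f : E ⟶ B} {r : ℕ} (hf : IsAffineBundle r f.left) (hB : IsVariety B)
    (n : ℤ) : Function.Surjective (C.pull f r hf n) :=
  hC.pull_surj E B f r hf hB n

theorem IsChow.point (n : ℤ) (h : n ≠ 0) : Subsingleton (C.M (aff k k) n) :=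
  hC.pointCycles n h

end Chow

section Valid

variable {T : CycleTheory.{u, v} k F} (hT : T.IsValid) {Z X U E B : Sch k}

include hT

theorem CycleTheory.IsValid.push (i : Z ⟶ X) (hi : IsClosedImmersion i.left) (n : ℤ) :
    (∀ z, T.cl X n (T.C.push i hi n z) = (T.H 0).push i hi n (T.cl Z n z)) ∧
      ∀ x ∈ T.special Z n, (T.H 0).push i hi n x ∈ T.special X n :=
  ⟨hT.natPush Z X i hi n, hT.keepsPush Z X i hi n⟩

theorem CycleTheory.IsValid.res (j : U ⟶ X) (hj : IsOpenImmersion j.left) (n : ℤ) :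
    (∀ z, T.cl U n (T.C.res j hj n z) = (T.H 0).res j hj n (T.cl X n z)) ∧
      ∀ x ∈ T.special X n, (T.H 0).res j hj n x ∈ T.special U n :=
  ⟨hT.natRes U X j hj n, hT.keepsRes U X j hj n⟩

theorem CycleTheory.IsValid.pull (f : E ⟶ B) (r : ℕ) (hf : IsAffineBundle r f.left) (n : ℤ) :
    (∀ z, T.cl E (n + r) (T.C.pull f r hf n z) = (T.H 0).pull f r hf n (T.cl B n z)) ∧
      ∀ x ∈ T.special B n, (T.H 0).pull f r hf n x ∈ T.special E (n + r) :=
  ⟨hT.natPull E B f r hf n, hT.keepsPull E B f r hf n⟩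

end Valid

section Strict

variable {T : CycleTheory.{u, v} k F} (hs : T.IsStrict) {Z X U E B : Sch k}

include hs

theorem CycleTheory.IsStrict.cl (hX : IsVariety X) (n : ℤ) (z : T.C.M X n) :
    T.cl X n z ∈ T.special X n :=
  hs.clSpecial X hX n ⟨z, rfl⟩

theorem CycleTheory.IsStrict.push {i : Z ⟶ X} {j : U ⟶ X} (hX : IsVariety X)
    (h : IsComplement i j) (n : ℤ) : ∀ x ∈ T.special X n, (T.H 0).res j h.2.1 n x = 0 →
      ∃ z ∈ T.special Z n, (T.H 0).push i h.1 n z = x :=
  hs.strictPush Z X U i j hX h n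

theorem CycleTheory.IsStrict.res (j : U ⟶ X) (hj : IsOpenImmersion j.left) (hX : IsVariety X)
    (n : ℤ) : ∀ x ∈ T.special U n, ∃ y, (T.H 0).res j hj n y = x :=
  hs.weighted.liftsRes U X j hj hX n

theorem CycleTheory.IsStrict.pull (f : E ⟶ B) (r : ℕ) (hf : IsAffineBundle r f.left)
    (hB : IsVariety B) (n : ℤ) (x : (T.H 0).M B n) :
    (T.H 0).pull f r hf n x ∈ T.special E (n + r) → x ∈ T.special B n :=
  hs.weighted.reflectsPull E B f r hf hB n x

end Strict

section Weighted

variable {T : CycleTheory.{u, v} k F} (hw : T.IsWeighted) {Z X U E B : Sch k}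

include hw

theorem CycleTheory.IsWeighted.res (j : U ⟶ X) (hj : IsOpenImmersion j.left) (hX : IsVariety X)
    (n : ℤ) : ∀ x ∈ T.special U n, ∃ y, (T.H 0).res j hj n y = x :=
  hw.liftsRes U X j hj hX n

theorem CycleTheory.IsWeighted.pull (f : E ⟶ B) (r : ℕ) (hf : IsAffineBundle r f.left)
    (hB : IsVariety B) (n : ℤ) (x : (T.H 0).M B n) :
    (T.H 0).pull f r hf n x ∈ T.special E (n + r) → x ∈ T.special B n :=
  hw.reflectsPull E B f r hf hB n x

theorem CycleTheory.IsWeighted.push (i : Z ⟶ X) (hi : IsClosedImmersion i.left)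
    (hX : IsVariety X) (n : ℤ) (h : Function.Injective ((T.H 0).push i hi n))
    (x : (T.H 0).M Z n) : (T.H 0).push i hi n x ∈ T.special X n → x ∈ T.special Z n :=
  hw.reflectsPush Z X i hi hX n h x

end Weighted

end Pool.Agent.Y138.UC
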